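import Mathlib
import Pool.Agent.Helper194.BB.Z
import Pool.Agent.Helper257.KleeBing.CellDefs

/-! The space `ZZ` (orbit of the family `zz` under the centre), its covering `piZ` of the Moore space,
the null homotopy of the inclusion in `SU(4)` and the data of the commutator compactum. -/

set_option autoImplicit false
set_option linter.unusedVariables false
set_option linter.unusedSectionVars false

open scoped unitInterval Matrix Topology ComplexConjugate Kronecker
open ContinuousMap Topology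

noncomputable section

namespace BB

/-- `4 × 4` complex matrices with the sup norm -/
abbrev V4 : Type := Fin 4 → Fin 4 → ℂ

/-- `ℂ⁴` with the euclidean norm -/
abbrev W4 : Type := EuclideanSpace ℂ (Fin 4)

/-- the matrix -/
def toM (x : V4) : M4 := Matrix.of x

/-- the inverse of `toM` -/
def toV (u : M4) : V4 := fun i j => u i j

theorem toM_toV (u : M4) : toM (toV u) = u := rfl

theorem toV_toM (x : V4) : toV (toM x) = x := rfl

theorem toM_cont : Continuous toM := continuous_id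

theorem toV_cont : Continuous toV := continuous_id

theorem toM_inj : Function.Injective toM := fun _ _ h => h

/-- the special unitary group as a subset of `M4` -/
def SU : Set M4 := {u | u ∈ Matrix.specialUnitaryGroup (Fin 4) ℂ}

/-- the orbit of the family `zz` under the centre `μ₄` -/
def ZZ : Type := {u : V4 // ∃ (c : ℂ) (y : Dk), c ^ 4 = 1 ∧ toM u = c • zz y}

instance : MetricSpace ZZ := inferInstanceAs (MetricSpace {u : V4 // ∃ (c : ℂ) (y : Dk), c ^ 4 = 1 ∧ toM u = c • zz y})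

/-- the underlying matrix -/
def ZZ.val (u : ZZ) : M4 := toM (Subtype.val u)

/-- constructor -/
def ZZ.mk (c : ℂ) (hc : c ^ 4 = 1) (y : Dk) : ZZ := ⟨toV (c • zz y), c, y, hc, rfl⟩

theorem ZZ.val_mk (c : ℂ) (hc : c ^ 4 = 1) (y : Dk) : (ZZ.mk c hc y).val = c • zz y := rfl

theorem ZZ.ext {u v : ZZ} (h : u.val = v.val) : u = v := Subtype.ext h

theorem ZZ.exists_mk (u : ZZ) : ∃ (c : ℂ) (hc : c ^ 4 = 1) (y : Dk), u = ZZ.mk c hc y := by
  obtain ⟨v, c, y, hc, h⟩ := u
  exact ⟨c, hc, y, ZZ.ext h⟩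

theorem ZZ.val_cont : Continuous ZZ.val := toM_cont.comp continuous_subtype_val

instance : Nonempty ZZ := ⟨ZZ.mk 1 (by simp) ⟨1, by simp⟩⟩


theorem ZZ_compact : IsCompact {u : V4 | ∃ (c : ℂ) (y : Dk), c ^ 4 = 1 ∧ toM u = c • zz y} := by
  have h1 : IsCompact {c : ℂ | c ^ 4 = 1} := by
    refine Metric.isCompact_of_isClosed_isBounded (isClosed_eq (continuous_pow 4)
      continuous_const) ?_
    refine (Metric.isBounded_closedBall (x := (0:ℂ)) (r := 1)).subset ?_
    intro c hc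
    rw [mem_closedBall_zero_iff]
    have hc' : c ^ 4 = 1 := hc
    have h : ‖c‖ ^ 4 = 1 := by rw [← norm_pow, hc', norm_one]
    exact ((pow_le_one_iff_of_nonneg (norm_nonneg c) (by norm_num : (4:ℕ) ≠ 0)).1 h.le)
  have h2 : IsCompact (({c : ℂ | c ^ 4 = 1}) ×ˢ (Set.univ : Set Dk)) := h1.prod isCompact_univ
  have h3 : Continuous (fun p : ℂ × Dk => toV (p.1 • zz p.2)) := by
    refine toV_cont.comp ?_
    exact continuous_fst.smul (zz_cont.comp (continuous_subtype_val.comp continuous_snd))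
  have h4 := h2.image h3
  convert h4 using 1
  ext u
  constructor
  · rintro ⟨c, y, hc, hu⟩
    refine ⟨(c, y), ⟨hc, Set.mem_univ _⟩, ?_⟩
    change toV (c • zz y) = u
    rw [← hu, toV_toM]
  · rintro ⟨⟨c, y⟩, ⟨hc, -⟩, rfl⟩
    exact ⟨c, y, hc, rfl⟩


instance : CompactSpace ZZ := isCompact_iff_compactSpace.1 ZZ_compact


theorem ZZ_su (u : ZZ) : u.val ∈ SU := by
  obtain ⟨c, hc, y, rfl⟩ := ZZ.exists_mk u
  rw [ZZ.val_mk]
  have h1 := zz_mem y (Dk_le y)
  rw [Matrix.mem_specialUnitaryGroup_iff] at h1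
  show c • zz y ∈ Matrix.specialUnitaryGroup (Fin 4) ℂ
  rw [Matrix.mem_specialUnitaryGroup_iff]
  have hn : ‖c‖ = 1 := Complex.norm_eq_one_of_pow_eq_one hc (by norm_num)
  have hcc : star c * c = 1 := by
    have : star c * c = (Complex.normSq c : ℂ) := by
      rw [Complex.star_def, mul_comm, Complex.mul_conj]
    rw [this, Complex.normSq_eq_norm_sq, hn]
    simp
  refine ⟨?_, ?_⟩
  · rw [Matrix.mem_unitaryGroup_iff', star_smul, smul_mul_smul_comm, hcc,
      Matrix.mem_unitaryGroup_iff'.1 h1.1, one_smul]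
  · rw [Matrix.det_smul, h1.2, Fintype.card_fin, hc, one_mul]


/-- the action of the centre -/
theorem ZZ_smul (c : ℂ) (hc : c ^ 4 = 1) (u : ZZ) : ∃ v : ZZ, v.val = c • u.val := by
  obtain ⟨c', hc', y, rfl⟩ := u.exists_mk
  refine ⟨ZZ.mk (c * c') (by rw [mul_pow, hc, hc', one_mul]) y, ?_⟩
  rw [ZZ.val_mk, ZZ.val_mk, smul_smul]


theorem ZZ_qm (u : ZZ) : ∃ y : Dk, qm 4 y = (u.val 0 0 ^ 4, u.val 0 0 * (starRingEnd ℂ) (u.val 3 0)) := by
  obtain ⟨c, hc, y, rfl⟩ := u.exists_mk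
  refine ⟨y, ?_⟩
  rw [ZZ.val_mk]
  have h0 : zz (y : ℂ) 0 0 = (y : ℂ) := by
    have h := congrFun (zz_col (y : ℂ)) 0
    simpa using h
  have h3 : zz (y : ℂ) 3 0 = sr (y : ℂ) := by
    have h := congrFun (zz_col (y : ℂ)) 3
    simpa using h
  have e0 : (c • zz (y : ℂ)) 0 0 = c * (y : ℂ) := by
    rw [Matrix.smul_apply, h0, smul_eq_mul]
  have e3 : (c • zz (y : ℂ)) 3 0 = c * sr (y : ℂ) := by
    rw [Matrix.smul_apply, h3, smul_eq_mul]
  have hn : ‖c‖ = 1 := Complex.norm_eq_one_of_pow_eq_one hc (by norm_num)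
  have hcc : c * (starRingEnd ℂ) c = 1 := by
    rw [Complex.mul_conj, Complex.normSq_eq_norm_sq, hn]
    norm_num
  have hsr : (starRingEnd ℂ) (sr (y : ℂ)) = sr (y : ℂ) := by
    unfold sr
    exact Complex.conj_ofReal _
  rw [e0, e3, map_mul, hsr]
  unfold qm
  refine Prod.ext ?_ ?_
  · show (y : ℂ) ^ 4 = (c * (y : ℂ)) ^ 4
    rw [mul_pow, hc, one_mul]
  · show sr (y : ℂ) * (y : ℂ) = c * (y : ℂ) * ((starRingEnd ℂ) c * sr (y : ℂ))
    linear_combination (-(sr (y : ℂ) * (y : ℂ))) * hcc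


theorem ZZ_ent (i j : Fin 4) : Continuous fun u : ZZ => u.val i j :=
  (continuous_apply j).comp ((continuous_apply i).comp ZZ.val_cont)

/-- the covering `ZZ → Y₄` -/
def piZ : C(ZZ, Ym 4) where
  toFun u := ⟨(u.val 0 0 ^ 4, u.val 0 0 * (starRingEnd ℂ) (u.val 3 0)), ZZ_qm u⟩
  continuous_toFun := by
    refine Continuous.subtype_mk ?_ _
    exact ((ZZ_ent 0 0).pow 4).prodMk ((ZZ_ent 0 0).mul (Complex.continuous_conj.comp (ZZ_ent 3 0)))


theorem piZ_mk (c : ℂ) (hc : c ^ 4 = 1) (y : Dk) : piZ (ZZ.mk c hc y) = qY 4 y := by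
  apply Subtype.ext
  show ((c • zz y) 0 0 ^ 4, (c • zz y) 0 0 * (starRingEnd ℂ) ((c • zz y) 3 0)) = ((y:ℂ) ^ 4, sr y * y)
  have h0 : zz y 0 0 = (y:ℂ) := by
    have := congrFun (zz_col (y:ℂ)) 0
    simpa using this
  have h3 : zz y 3 0 = sr y := by
    have := congrFun (zz_col (y:ℂ)) 3
    simpa using this
  have hn : ‖c‖ = 1 := Complex.norm_eq_one_of_pow_eq_one hc (by norm_num)
  have hcc : c * (starRingEnd ℂ) c = 1 := by
    rw [Complex.mul_conj, Complex.normSq_eq_norm_sq, hn]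
    simp
  have hsr : (starRingEnd ℂ) (sr y) = sr y := by
    unfold sr
    exact Complex.conj_ofReal _
  rw [Matrix.smul_apply, Matrix.smul_apply, h0, h3, smul_eq_mul, smul_eq_mul, map_mul, hsr]
  refine Prod.ext ?_ ?_
  · show (c * (y:ℂ)) ^ 4 = (y:ℂ) ^ 4
    rw [mul_pow, hc, one_mul]
  · show c * (y:ℂ) * ((starRingEnd ℂ) c * sr y) = sr y * y
    calc c * (y:ℂ) * ((starRingEnd ℂ) c * sr y) = (c * (starRingEnd ℂ) c) * (sr y * y) := by ring
      _ = sr y * y := by rw [hcc, one_mul]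


theorem piZ_surj : Function.Surjective piZ := by
  intro w
  obtain ⟨y, hy⟩ := qY_surj 4 w
  exact ⟨ZZ.mk 1 (by simp) y, by rw [piZ_mk, hy]⟩


theorem piZ_eq_iff (u v : ZZ) : piZ u = piZ v ↔ ∃ c : ℂ, c ^ 4 = 1 ∧ v.val = c • u.val := by
  constructor
  · intro h
    obtain ⟨c1, hc1, y1, rfl⟩ := ZZ.exists_mk u
    obtain ⟨c2, hc2, y2, rfl⟩ := ZZ.exists_mk v
    rw [piZ_mk, piZ_mk] at h
    have : Fact (4 ∣ 4) := ⟨dvd_rfl⟩
    obtain ⟨c, hc, -, hz⟩ := zz_qY h
    have hc10 : c1 ≠ 0 := by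
      rintro rfl
      norm_num at hc1
    refine ⟨c2 * c * c1⁻¹, ?_, ?_⟩
    · rw [mul_pow, mul_pow, inv_pow, hc1, hc2, hc]
      norm_num
    · rw [ZZ.val_mk, ZZ.val_mk, hz, smul_smul, smul_smul, inv_mul_cancel_right₀ hc10]
  · rintro ⟨c, hc, h⟩
    have hn : ‖c‖ = 1 := by
      have h1 : ‖c‖ ^ 4 = 1 := by rw [← norm_pow, hc, norm_one]
      exact (pow_eq_one_iff_of_nonneg (norm_nonneg _) (by norm_num)).1 h1
    have hcc : c * (starRingEnd ℂ) c = 1 := by
      rw [Complex.mul_conj, Complex.normSq_eq_norm_sq, hn]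
      norm_num
    apply Subtype.ext
    show (u.val 0 0 ^ 4, u.val 0 0 * (starRingEnd ℂ) (u.val 3 0)) =
      (v.val 0 0 ^ 4, v.val 0 0 * (starRingEnd ℂ) (v.val 3 0))
    have e1 : v.val 0 0 = c * u.val 0 0 := by rw [h]; rfl
    have e2 : v.val 3 0 = c * u.val 3 0 := by rw [h]; rfl
    rw [e1, e2, map_mul]
    refine Prod.ext ?_ ?_
    · show u.val 0 0 ^ 4 = (c * u.val 0 0) ^ 4
      rw [mul_pow, hc, one_mul]
    · show u.val 0 0 * (starRingEnd ℂ) (u.val 3 0) =
        c * u.val 0 0 * ((starRingEnd ℂ) c * (starRingEnd ℂ) (u.val 3 0))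
      calc u.val 0 0 * (starRingEnd ℂ) (u.val 3 0) =
          1 * (u.val 0 0 * (starRingEnd ℂ) (u.val 3 0)) := by rw [one_mul]
        _ = (c * (starRingEnd ℂ) c) * (u.val 0 0 * (starRingEnd ℂ) (u.val 3 0)) := by rw [hcc]
        _ = _ := by ring


namespace Aux_piZ_cov

/-- the action of the fourth roots of unity on `ZZ` -/
def zAct (g : rootsOfUnity 4 ℂ) (u : ZZ) : ZZ :=
  ⟨fun i j => ((g : ℂˣ) : ℂ) * (Subtype.val u) i j, by
    obtain ⟨v, c, y, hc, h⟩ := u
    have hg : (((g : ℂˣ) : ℂ)) ^ 4 = 1 := by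
      have := g.2
      rw [mem_rootsOfUnity] at this
      rw [← Units.val_pow_eq_pow_val, this, Units.val_one]
    refine ⟨((g : ℂˣ) : ℂ) * c, y, by rw [mul_pow, hg, hc, one_mul], ?_⟩
    have h2 : ((g : ℂˣ) : ℂ) • toM v = (((g : ℂˣ) : ℂ) * c) • zz y := by
      rw [mul_smul, h]
    exact h2⟩

theorem zAct_val (g : rootsOfUnity 4 ℂ) (u : ZZ) : (zAct g u).val = ((g : ℂˣ) : ℂ) • u.val := rfl

instance zMulAction : MulAction (rootsOfUnity 4 ℂ) ZZ where
  smul := zAct
  one_smul u := ZZ.ext (by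
    change (zAct 1 u).val = u.val
    rw [zAct_val]; simp)
  mul_smul a b u := ZZ.ext (by
    change (zAct (a * b) u).val = (zAct a (zAct b u)).val
    rw [zAct_val, zAct_val, zAct_val]; simp [mul_smul])

theorem zsmul_val (g : rootsOfUnity 4 ℂ) (u : ZZ) : (g • u).val = ((g : ℂˣ) : ℂ) • u.val := rfl

instance zContSMul : ContinuousConstSMul (rootsOfUnity 4 ℂ) ZZ where
  continuous_const_smul g := by
    refine Continuous.subtype_mk ?_ _
    refine continuous_pi fun i => continuous_pi fun j => ?_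
    exact continuous_const.mul ((continuous_apply j).comp ((continuous_apply i).comp continuous_subtype_val))

theorem ZZ_ne_zero (u : ZZ) : u.val ≠ 0 := by
  intro h
  have h1 := (ZZ_su u).1
  rw [h] at h1
  have h2 := (Matrix.mem_unitaryGroup_iff).1 h1
  have h3 := congrFun (congrFun h2 0) 0
  simp at h3

instance zCancel : IsCancelSMul (rootsOfUnity 4 ℂ) ZZ := by
  rw [isCancelSMul_iff_eq_one_of_smul_eq]
  intro g u h
  have h1 : ((g : ℂˣ) : ℂ) • u.val = u.val := by
    rw [← zsmul_val, h]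
  have h2 : (((g : ℂˣ) : ℂ) - 1) • u.val = 0 := by
    rw [sub_smul, h1, one_smul, sub_self]
  rcases smul_eq_zero.1 h2 with h3 | h3
  · apply Subtype.ext
    apply Units.ext
    exact sub_eq_zero.1 h3
  · exact absurd h3 (ZZ_ne_zero u)

theorem piZ_quot : IsQuotientMap piZ :=
  (piZ.continuous.isClosedMap).isQuotientMap piZ.continuous piZ_surj

end Aux_piZ_cov

open Aux_piZ_cov in
theorem piZ_cov : IsCoveringMap piZ := by
  have h : IsQuotientCoveringMap piZ (rootsOfUnity 4 ℂ) := by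
    refine piZ_quot.isQuotientCoveringMap_of_properlyDiscontinuousSMul ?_
    intro u v
    rw [eq_comm, piZ_eq_iff]
    constructor
    · rintro ⟨c, hc, h⟩
      have hc0 : c ≠ 0 := by
        rintro rfl
        norm_num at hc
      refine ⟨⟨Units.mk0 c hc0, ?_⟩, ?_⟩
      · rw [mem_rootsOfUnity]
        apply Units.ext
        simpa using hc
      · apply ZZ.ext
        change ((⟨Units.mk0 c hc0, _⟩ : rootsOfUnity 4 ℂ) • v).val = u.val
        rw [zsmul_val, h]
        rfl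
    · rintro ⟨g, rfl⟩
      refine ⟨((g : ℂˣ) : ℂ), ?_, ?_⟩
      · have := g.2
        rw [mem_rootsOfUnity] at this
        rw [← Units.val_pow_eq_pow_val, this, Units.val_one]
      · exact zsmul_val g v
  exact h.isCoveringMap


/-- an element of `ZZ` is determined by its first column -/
theorem ZZ_col (u v : ZZ) (h : ∀ i, u.val i 0 = v.val i 0) : u = v := by
  obtain ⟨c, hc, y, rfl⟩ := ZZ.exists_mk u
  obtain ⟨c', hc', y', rfl⟩ := ZZ.exists_mk v
  apply ZZ.ext
  rw [ZZ.val_mk, ZZ.val_mk]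
  have col : ∀ (d : ℂ) (z : ℂ) (i : Fin 4), (d • zz z) i 0 = d * (![z, 0, 0, sr z] : Fin 4 → ℂ) i := by
    intro d z i
    rw [← zz_col z]
    rfl
  have e0 : c * (y : ℂ) = c' * (y' : ℂ) := by
    have := h 0
    rw [ZZ.val_mk, ZZ.val_mk, col, col] at this
    simpa using this
  have e3 : c * sr y = c' * sr y' := by
    have := h 3
    rw [ZZ.val_mk, ZZ.val_mk, col, col] at this
    simpa using this
  have nc : ∀ d : ℂ, d ^ 4 = 1 → ‖d‖ = 1 := by
    intro d hd
    have h1 : ‖d‖ ^ 4 = 1 := by rw [← norm_pow, hd, norm_one]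
    exact (pow_eq_one_iff_of_nonneg (norm_nonneg d) (by norm_num)).1 h1
  have ns : ∀ z : ℂ, ‖sr z‖ = Real.sqrt (1 - ‖z‖ ^ 2) := by
    intro z
    rw [sr, Complex.norm_real, Real.norm_of_nonneg (Real.sqrt_nonneg _)]
  have hr : Real.sqrt (1 - ‖(y : ℂ)‖ ^ 2) = Real.sqrt (1 - ‖(y' : ℂ)‖ ^ 2) := by
    have := congrArg norm e3
    rw [norm_mul, norm_mul, nc c hc, nc c' hc', one_mul, one_mul, ns, ns] at this
    exact this
  have hs : sr (y : ℂ) = sr (y' : ℂ) := by rw [sr, sr, hr]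
  have c0 : c ≠ 0 := by rintro rfl; simp at hc
  by_cases hz : sr (y : ℂ) = 0
  · have key : ∀ z : Dk, sr (z : ℂ) = 0 → ‖(z : ℂ)‖ = 1 := by
      intro z hz
      have h1 : Real.sqrt (1 - ‖(z : ℂ)‖ ^ 2) = 0 := by rw [← ns, hz, norm_zero]
      have h2 := (Real.sqrt_eq_zero').1 h1
      have h3 := Dk_le z
      nlinarith [norm_nonneg (z : ℂ)]
    rw [← zz_rot _ _ (key y hz) hc, ← zz_rot _ _ (key y' (hs ▸ hz)) hc', e0]
  · have hcc : c = c' := by
      rw [← hs] at e3
      exact mul_right_cancel₀ hz e3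
    subst hcc
    rw [mul_left_cancel₀ c0 e0]


namespace Aux_exists_hZ

theorem zz_mul_bdry' (c w : ℂ) (hc : ‖c‖ = 1) (hw : ‖w‖ = 1) : zz c * zz w = zz (c * w) := by
  rw [zz_bdry c hc, zz_bdry w hw, zz_bdry (c*w) (by rw [norm_mul, hc, hw, one_mul]),
    Matrix.diagonal_mul_diagonal]
  congr 1
  ext i
  fin_cases i <;> simp [mul_pow]

theorem zz_root' (c : ℂ) (hc : c ^ 4 = 1) : zz c = c • (1 : M4) := by
  have := zz_rot 1 c (by simp) hc
  rwa [mul_one, zz_one] at this

theorem I_pow_four' (k : ℕ) : (Complex.I ^ k) ^ 4 = 1 := by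
  rw [← pow_mul, mul_comm, pow_mul, Complex.I_pow_four, one_pow]

theorem root_four' (c : ℂ) (hc : c ^ 4 = 1) : ∃ k : Fin 4, c = Complex.I ^ (k : ℕ) := by
  have h : (c - 1) * (c + 1) * ((c - Complex.I) * (c + Complex.I)) = 0 := by
    have hI : Complex.I ^ 2 = -1 := Complex.I_sq
    linear_combination hc - (c^2 - 1) * hI
  rcases mul_eq_zero.1 h with h | h
  · rcases mul_eq_zero.1 h with h | h
    · exact ⟨0, by simpa using sub_eq_zero.1 h⟩
    · refine ⟨2, ?_⟩
      have h2 : c = -1 := eq_neg_of_add_eq_zero_left h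
      rw [h2]
      change -1 = Complex.I ^ 2
      rw [Complex.I_sq]
  · rcases mul_eq_zero.1 h with h | h
    · refine ⟨1, ?_⟩
      change c = Complex.I ^ 1
      rw [pow_one]
      exact sub_eq_zero.1 h
    · refine ⟨3, ?_⟩
      have h2 : c = -Complex.I := eq_neg_of_add_eq_zero_left h
      rw [h2]
      change -Complex.I = Complex.I ^ 3
      rw [Complex.I_pow_three]

/-- the covering by four disks -/
def qq4 : C(I × (Fin 4 × Dk), I × ZZ) where
  toFun p := (p.1, ZZ.mk (Complex.I ^ (p.2.1 : ℕ)) (I_pow_four' _) p.2.2)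
  continuous_toFun := by
    refine continuous_fst.prodMk ?_
    refine Continuous.subtype_mk ?_ _
    refine toV_cont.comp ?_
    have h1 : Continuous fun p : I × (Fin 4 × Dk) => Complex.I ^ (p.2.1 : ℕ) :=
      (continuous_of_discreteTopology (f := fun k : Fin 4 => Complex.I ^ (k : ℕ))).comp
        (continuous_fst.comp continuous_snd)
    have h2 : Continuous fun p : I × (Fin 4 × Dk) => zz (p.2.2 : ℂ) :=
      zz_cont.comp (continuous_subtype_val.comp (continuous_snd.comp continuous_snd))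
    exact h1.smul h2

theorem qq4_surj : Function.Surjective qq4 := by
  rintro ⟨t, u⟩
  obtain ⟨c, hc, y, rfl⟩ := u.exists_mk
  obtain ⟨k, rfl⟩ := root_four' c hc
  exact ⟨(t, (k, y)), rfl⟩

theorem qq4_quot : IsQuotientMap qq4 :=
  IsQuotientMap.of_surjective_continuous qq4_surj qq4.continuous

/-- first parameter -/
def aa4 (t : I) : ℝ := min (2 * (t : ℝ)) 1

/-- second parameter -/
def bb4 (t : I) : ℝ := max (2 * (t : ℝ) - 1) 0

theorem aa4_cont : Continuous aa4 := by unfold aa4; fun_prop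
theorem bb4_cont : Continuous bb4 := by unfold bb4; fun_prop

theorem bb4_nonneg (t : I) : 0 ≤ bb4 t := le_max_right _ _
theorem bb4_le (t : I) : bb4 t ≤ 1 := by
  have := t.2.2
  exact max_le (by linarith) zero_le_one

/-- the angle -/
def th4 (p : I × (Fin 4 × Dk)) : ℝ := (1 - aa4 p.1) * (((p.2.1 : ℕ) : ℝ) * (Real.pi / 2))

theorem th4_cont : Continuous th4 := by
  unfold th4
  refine (continuous_const.sub (aa4_cont.comp continuous_fst)).mul (Continuous.mul ?_ continuous_const)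
  exact (continuous_of_discreteTopology (f := fun k : Fin 4 => ((k : ℕ) : ℝ))).comp
        (continuous_fst.comp continuous_snd)

/-- the point of the disk -/
def ww4 (t : I) (w : ℂ) : ℂ := (1 - (bb4 t : ℂ)) * w + (bb4 t : ℂ)

theorem ww4_le (t : I) (w : ℂ) (hw : ‖w‖ ≤ 1) : ‖ww4 t w‖ ≤ 1 := by
  unfold ww4
  have h0 := bb4_nonneg t
  have h1 := bb4_le t
  have h2 : ‖(1 - (bb4 t : ℂ)) * w‖ ≤ 1 - bb4 t := by
    rw [norm_mul]
    have : ‖(1 - (bb4 t : ℂ))‖ = 1 - bb4 t := by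
      have : (1 - (bb4 t : ℂ)) = ((1 - bb4 t : ℝ) : ℂ) := by push_cast; ring
      rw [this, Complex.norm_real, Real.norm_of_nonneg (by linarith)]
    rw [this]
    exact mul_le_of_le_one_right (by linarith) hw
  have h3 : ‖(bb4 t : ℂ)‖ = bb4 t := by rw [Complex.norm_real, Real.norm_of_nonneg h0]
  calc _ ≤ _ := norm_add_le _ _
    _ ≤ 1 := by rw [h3]; linarith

/-- the lifted homotopy -/
def GG4 : C(I × (Fin 4 × Dk), M4) where
  toFun p := zz (Complex.exp ((th4 p : ℂ) * Complex.I)) *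
    zz (Complex.exp (((-th4 p : ℝ) : ℂ) * Complex.I) *
      ww4 p.1 (Complex.I ^ (p.2.1 : ℕ) * (p.2.2 : ℂ)))
  continuous_toFun := by
    refine Continuous.mul ?_ ?_
    · refine zz_cont.comp ?_
      exact Complex.continuous_exp.comp
        ((Complex.continuous_ofReal.comp th4_cont).mul continuous_const)
    · refine zz_cont.comp ?_
      refine Continuous.mul ?_ ?_
      · exact Complex.continuous_exp.comp
          ((Complex.continuous_ofReal.comp th4_cont.neg).mul continuous_const)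
      · unfold ww4
        have hb : Continuous fun p : I × (Fin 4 × Dk) => ((bb4 p.1 : ℝ) : ℂ) :=
          Complex.continuous_ofReal.comp (bb4_cont.comp continuous_fst)
        refine Continuous.add (Continuous.mul (continuous_const.sub hb) ?_) hb
        refine Continuous.mul ?_ ?_
        · exact (continuous_of_discreteTopology (f := fun k : Fin 4 => Complex.I ^ (k : ℕ))).comp
            (continuous_fst.comp continuous_snd)
        · exact continuous_subtype_val.comp (continuous_snd.comp continuous_snd)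

theorem GG4_apply (t : I) (k : Fin 4) (y : Dk) : GG4 (t, (k, y)) =
    zz (Complex.exp ((th4 (t, (k, y)) : ℂ) * Complex.I)) *
    zz (Complex.exp (((-th4 (t, (k, y)) : ℝ) : ℂ) * Complex.I) *
      ww4 t (Complex.I ^ (k : ℕ) * (y : ℂ))) := rfl

theorem norm_I_pow4 (k : ℕ) : ‖Complex.I ^ k‖ = 1 := by
  rw [norm_pow, Complex.norm_I, one_pow]

theorem GG4_mem (p : I × (Fin 4 × Dk)) : GG4 p ∈ SU := by
  obtain ⟨t, k, y⟩ := p
  rw [GG4_apply]
  refine Submonoid.mul_mem (Matrix.specialUnitaryGroup (Fin 4) ℂ) (zz_mem _ ?_) (zz_mem _ ?_)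
  · rw [Complex.norm_exp_ofReal_mul_I]
  · rw [norm_mul, Complex.norm_exp_ofReal_mul_I, one_mul]
    refine ww4_le _ _ ?_
    rw [norm_mul, norm_I_pow4, one_mul]
    exact Dk_le y

theorem exp_mul_exp4 (x : ℝ) : Complex.exp ((x : ℂ) * Complex.I) *
    Complex.exp (((-x : ℝ) : ℂ) * Complex.I) = 1 := by
  rw [← Complex.exp_add]
  have : (x : ℂ) * Complex.I + ((-x : ℝ) : ℂ) * Complex.I = 0 := by push_cast; ring
  rw [this, Complex.exp_zero]

/-- boundary values -/
theorem GG4_bdry (t : I) (k : Fin 4) (y : Dk) (hy : ‖(y : ℂ)‖ = 1) :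
    GG4 (t, (k, y)) = zz (ww4 t (Complex.I ^ (k : ℕ) * (y : ℂ))) := by
  rw [GG4_apply]
  by_cases ht : (t : ℝ) ≤ 1 / 2
  · have hb : bb4 t = 0 := by
      unfold bb4
      exact max_eq_right (by linarith)
    have hw : ww4 t (Complex.I ^ (k : ℕ) * (y : ℂ)) = Complex.I ^ (k : ℕ) * (y : ℂ) := by
      unfold ww4; rw [hb]; simp
    rw [hw, zz_mul_bdry', ← mul_assoc, exp_mul_exp4, one_mul]
    · rw [Complex.norm_exp_ofReal_mul_I]
    · rw [norm_mul, norm_mul, Complex.norm_exp_ofReal_mul_I, one_mul, norm_I_pow4, one_mul, hy]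
  · have ha : aa4 t = 1 := by
      unfold aa4
      exact min_eq_right (by linarith)
    have hth : th4 (t, (k, y)) = 0 := by
      unfold th4
      simp only [ha]
      ring
    rw [hth]
    simp [zz_one]

theorem sr_nonneg4 (y : ℂ) : ∃ r : ℝ, 0 ≤ r ∧ sr y = (r : ℂ) := ⟨_, Real.sqrt_nonneg _, rfl⟩

theorem sr_zero4 (y : Dk) (h : sr (y : ℂ) = 0) : ‖(y : ℂ)‖ = 1 := by
  unfold sr at h
  have h1 := Complex.ofReal_eq_zero.1 h
  have h2 := Dk_le y
  have h3 : 0 ≤ 1 - ‖(y : ℂ)‖ ^ 2 := by nlinarith [norm_nonneg (y : ℂ)]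
  have h4 := (Real.sqrt_eq_zero h3).1 h1
  nlinarith [norm_nonneg (y : ℂ)]

theorem sr_norm4 (y : Dk) : ‖sr (y : ℂ)‖ ^ 2 = 1 - ‖(y : ℂ)‖ ^ 2 := by
  unfold sr
  have h2 := Dk_le y
  have h3 : 0 ≤ 1 - ‖(y : ℂ)‖ ^ 2 := by nlinarith [norm_nonneg (y : ℂ)]
  rw [Complex.norm_real, Real.norm_of_nonneg (Real.sqrt_nonneg _), Real.sq_sqrt h3]

theorem GG4_compat (p q : I × (Fin 4 × Dk)) (h : qq4 p = qq4 q) : GG4 p = GG4 q := by
  obtain ⟨t, k, y⟩ := p
  obtain ⟨t', k', y'⟩ := q
  have h1 : t = t' := congrArg Prod.fst h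
  have h2 : ZZ.mk (Complex.I ^ (k : ℕ)) (I_pow_four' _) y =
    ZZ.mk (Complex.I ^ (k' : ℕ)) (I_pow_four' _) y' := congrArg Prod.snd h
  have h3 : Complex.I ^ (k : ℕ) • zz y = Complex.I ^ (k' : ℕ) • zz y' := congrArg ZZ.val h2
  subst h1
  have c1 := congrFun (zz_col y)
  have c2 := congrFun (zz_col y')
  have e0 : Complex.I ^ (k : ℕ) * (y : ℂ) = Complex.I ^ (k' : ℕ) * (y' : ℂ) := by
    have e := congrFun (congrFun h3 0) 0
    have a1 := c1 0
    have a2 := c2 0
    simp only [Matrix.cons_val_zero] at a1 a2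
    rw [Matrix.smul_apply, Matrix.smul_apply, a1, a2] at e
    exact e
  have e3 : Complex.I ^ (k : ℕ) * sr (y : ℂ) = Complex.I ^ (k' : ℕ) * sr (y' : ℂ) := by
    have e := congrFun (congrFun h3 3) 0
    have a1 : zz y 3 0 = sr y := c1 3
    have a2 : zz y' 3 0 = sr y' := c2 3
    rw [Matrix.smul_apply, Matrix.smul_apply, a1, a2] at e
    exact e
  have en : ‖(y : ℂ)‖ = ‖(y' : ℂ)‖ := by
    have := congrArg norm e0
    rwa [norm_mul, norm_mul, norm_I_pow4, norm_I_pow4, one_mul, one_mul] at this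
  by_cases hy : ‖(y : ℂ)‖ = 1
  · rw [GG4_bdry t k y hy, GG4_bdry t k' y' (en ▸ hy), e0]
  · have hs : sr (y : ℂ) = sr (y' : ℂ) := by unfold sr; rw [en]
    have hs0 : sr (y : ℂ) ≠ 0 := fun h => hy (sr_zero4 y h)
    rw [← hs] at e3
    have e4 : Complex.I ^ (k : ℕ) = Complex.I ^ (k' : ℕ) := mul_right_cancel₀ hs0 e3
    have hne : Complex.I ^ (k' : ℕ) ≠ 0 := pow_ne_zero _ Complex.I_ne_zero
    have e5 : y = y' := by
      rw [e4] at e0
      exact Subtype.ext (mul_left_cancel₀ hne e0)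
    have e6 : k = k' := by
      clear e0 e3 h h2 h3 hne
      fin_cases k <;> fin_cases k' <;> first | rfl | (exfalso; revert e4; norm_num [Complex.ext_iff, pow_succ])
    rw [e5, e6]

end Aux_exists_hZ

open Aux_exists_hZ in
/-- the inclusion `ZZ → SU(4)` is null homotopic -/
theorem exists_hZ : ∃ h : C(I × ZZ, M4), (∀ u, h (0, u) = u.val) ∧ (∀ u, h (1, u) = 1) ∧
    ∀ q, h q ∈ SU := by
  have hc : ∀ p, qq4_quot.lift GG4 GG4_compat (qq4 p) = GG4 p := fun p => by
    have := qq4_quot.lift_comp GG4 GG4_compat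
    exact DFunLike.congr_fun this p
  refine ⟨qq4_quot.lift GG4 GG4_compat, ?_, ?_, ?_⟩
  · intro u
    obtain ⟨c, hc', y, rfl⟩ := u.exists_mk
    obtain ⟨k, rfl⟩ := root_four' c hc'
    have e := hc (0, (k, y))
    change _ = GG4 (0, (k, y)) at e
    refine (show _ = _ from e).trans ?_
    rw [GG4_apply]
    have ha : aa4 0 = 0 := by unfold aa4; simp
    have hb : bb4 0 = 0 := by unfold bb4; simp
    have hth : th4 (0, (k, y)) = (k : ℕ) * (Real.pi / 2) := by
      unfold th4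
      simp only [ha]
      ring
    have hw : ww4 0 (Complex.I ^ (k : ℕ) * (y : ℂ)) = Complex.I ^ (k : ℕ) * (y : ℂ) := by
      unfold ww4; rw [hb]; simp
    have hE : Complex.exp ((th4 (0, (k, y)) : ℂ) * Complex.I) = Complex.I ^ (k : ℕ) := by
      rw [hth]
      have : (((k : ℕ) * (Real.pi / 2) : ℝ) : ℂ) * Complex.I
          = (k : ℕ) * ((Real.pi : ℂ) / 2 * Complex.I) := by push_cast; ring
      rw [this, Complex.exp_nat_mul, Complex.exp_pi_div_two_mul_I]
    have hE2 := exp_mul_exp4 (th4 (0, (k, y)))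
    rw [hE] at hE2
    rw [hw, hE, ← mul_assoc, mul_comm (Complex.exp _) (Complex.I ^ (k:ℕ)), hE2, one_mul,
      zz_root' _ (I_pow_four' _), ZZ.val_mk, smul_mul_assoc, one_mul]
  · intro u
    obtain ⟨c, hc', y, rfl⟩ := u.exists_mk
    obtain ⟨k, rfl⟩ := root_four' c hc'
    have e := hc (1, (k, y))
    refine (show _ = _ from e).trans ?_
    rw [GG4_apply]
    have ha : aa4 1 = 1 := by unfold aa4; simp
    have hb : bb4 1 = 1 := by unfold bb4; norm_num
    have hth : th4 (1, (k, y)) = 0 := by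
      unfold th4
      simp only [ha]
      ring
    have hw : ww4 1 (Complex.I ^ (k : ℕ) * (y : ℂ)) = 1 := by
      unfold ww4; rw [hb]; simp
    rw [hw, hth]
    simp [zz_one]
  · intro q
    obtain ⟨p, rfl⟩ := qq4_surj q
    rw [hc]
    exact GG4_mem p


/-- the null homotopy -/
def hZ : C(I × ZZ, M4) := exists_hZ.choose

theorem hZ_zero (u : ZZ) : hZ (0, u) = u.val := exists_hZ.choose_spec.1 u

theorem hZ_one (u : ZZ) : hZ (1, u) = 1 := exists_hZ.choose_spec.2.1 u

theorem hZ_su (q : I × ZZ) : hZ q ∈ SU := exists_hZ.choose_spec.2.2 q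

/-- the commutator -/
def cmt (z x : M4) : M4 := z * x * star z * star x

theorem cmt_cont : Continuous fun p : M4 × M4 => cmt p.1 p.2 := by
  unfold cmt; fun_prop

theorem cmt_cont2 {X : Type*} [TopologicalSpace X] {f g : X → M4} (hf : Continuous f)
    (hg : Continuous g) : Continuous fun p => cmt (f p) (g p) := by
  unfold cmt; fun_prop

/-- the weight function -/
def rhoF (x : ℕ → V4) : ℝ := ∑' m : ℕ, (1 / 2 : ℝ) ^ (m + 1) * min 1 ‖x m - toV 1‖


theorem rhoF_cont : Continuous rhoF := by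
  unfold rhoF
  refine continuous_tsum (u := fun m : ℕ => (1 / 2 : ℝ) ^ (m + 1)) (fun m => ?_) ?_ (fun m x => ?_)
  · exact continuous_const.mul (continuous_const.min (((continuous_apply m).sub continuous_const).norm))
  · have h := (summable_geometric_of_lt_one (r := (1 / 2 : ℝ)) (by norm_num) (by norm_num)).mul_left (1 / 2 : ℝ)
    refine h.congr (fun m => ?_)
    rw [pow_succ]; ring
  · rw [Real.norm_of_nonneg (by positivity)]
    have h1 : min 1 ‖x m - toV 1‖ ≤ 1 := min_le_left _ _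
    have h2 : (0:ℝ) < (1 / 2 : ℝ) ^ (m + 1) := by positivity
    nlinarith


theorem rhoF_mem (x : ℕ → V4) : 0 ≤ rhoF x ∧ rhoF x ≤ 1 := by
  have hsum : HasSum (fun m : ℕ => (1 / 2 : ℝ) ^ (m + 1)) 1 := by
    have h := (hasSum_geometric_two).mul_left (1 / 2 : ℝ)
    have e : (1 / 2 : ℝ) * 2 = 1 := by norm_num
    rw [e] at h
    refine h.congr_fun ?_
    intro m
    rw [pow_succ']
  have h0 : ∀ m : ℕ, 0 ≤ (1 / 2 : ℝ) ^ (m + 1) * min 1 ‖x m - toV 1‖ := fun m =>
    mul_nonneg (by positivity) (le_min zero_le_one (norm_nonneg _))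
  have h1 : ∀ m : ℕ, (1 / 2 : ℝ) ^ (m + 1) * min 1 ‖x m - toV 1‖ ≤ (1 / 2 : ℝ) ^ (m + 1) := fun m =>
    mul_le_of_le_one_right (by positivity) (min_le_left _ _)
  have hs : Summable (fun m : ℕ => (1 / 2 : ℝ) ^ (m + 1) * min 1 ‖x m - toV 1‖) :=
    Summable.of_nonneg_of_le h0 h1 hsum.summable
  refine ⟨tsum_nonneg h0, ?_⟩
  unfold rhoF
  exact (hs.tsum_le_tsum h1 hsum.summable).trans hsum.tsum_eq.le


theorem rhoF_zero (x : ℕ → V4) : rhoF x = 0 ↔ x = fun _ => toV 1 := by
  have hnn : ∀ m : ℕ, 0 ≤ (1 / 2 : ℝ) ^ (m + 1) * min 1 ‖x m - toV 1‖ := fun m =>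
    mul_nonneg (by positivity) (le_min zero_le_one (norm_nonneg _))
  have hg : Summable fun m : ℕ => (1 / 2 : ℝ) ^ (m + 1) := by
    rw [summable_nat_add_iff 1]
    exact summable_geometric_of_lt_one (by norm_num) (by norm_num)
  have hs : Summable fun m : ℕ => (1 / 2 : ℝ) ^ (m + 1) * min 1 ‖x m - toV 1‖ := by
    refine Summable.of_nonneg_of_le hnn (fun m => ?_) hg
    calc (1 / 2 : ℝ) ^ (m + 1) * min 1 ‖x m - toV 1‖ ≤ (1 / 2 : ℝ) ^ (m + 1) * 1 :=
          mul_le_mul_of_nonneg_left (min_le_left _ _) (by positivity)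
      _ = _ := mul_one _
  constructor
  · intro h
    have h1 : HasSum (fun m : ℕ => (1 / 2 : ℝ) ^ (m + 1) * min 1 ‖x m - toV 1‖) 0 := by
      have h2 := hs.hasSum
      have h3 : (∑' m : ℕ, (1 / 2 : ℝ) ^ (m + 1) * min 1 ‖x m - toV 1‖) = 0 := h
      rwa [h3] at h2
    rw [hasSum_zero_iff_of_nonneg hnn] at h1
    funext m
    have h4 := congrFun h1 m
    simp only [Pi.zero_apply] at h4
    have h5 : min 1 ‖x m - toV 1‖ = 0 := by
      rcases mul_eq_zero.mp h4 with h6 | h6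
      · exact absurd h6 (by positivity)
      · exact h6
    have h6 : ‖x m - toV 1‖ = 0 := by
      rcases min_choice 1 ‖x m - toV 1‖ with h7 | h7
      · rw [h7] at h5
        exact absurd h5 one_ne_zero
      · rw [h7] at h5
        exact h5
    exact sub_eq_zero.mp (norm_eq_zero.mp h6)
  · intro h
    subst h
    unfold rhoF
    simp


/-- the first column -/
def colF (u : M4) : W4 := WithLp.toLp 2 (fun i => u i 0)


theorem colF_norm (u : M4) (hu : u ∈ SU) : ‖colF u‖ = 1 := by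
  have h0 : u ∈ Matrix.specialUnitaryGroup (Fin 4) ℂ := hu
  have h1 : star u * u = 1 := (Matrix.mem_unitaryGroup_iff').1 h0.1
  have h2 : (star u * u) 0 0 = (1 : M4) 0 0 := by rw [h1]
  rw [Matrix.mul_apply, Matrix.one_apply_eq] at h2
  have h3 : ((∑ i, ‖u i 0‖ ^ 2 : ℝ) : ℂ) = 1 := by
    rw [← h2]
    push_cast
    refine Finset.sum_congr rfl fun i _ => ?_
    rw [Matrix.star_apply, ← Complex.conj_mul']
    rfl
  have h4 : (∑ i, ‖u i 0‖ ^ 2 : ℝ) = 1 := by exact_mod_cast h3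
  rw [EuclideanSpace.norm_eq]
  have h5 : (∑ i, ‖(colF u).ofLp i‖ ^ 2 : ℝ) = 1 := h4
  rw [h5, Real.sqrt_one]


theorem su_compact : IsCompact {x : V4 | toM x ∈ SU} := by
  apply Metric.isCompact_of_isClosed_isBounded
  · have h1 : {x : V4 | toM x ∈ SU} =
        {x : V4 | toM x * star (toM x) = 1} ∩ {x : V4 | (toM x).det = 1} := by
      ext x
      show toM x ∈ Matrix.specialUnitaryGroup (Fin 4) ℂ ↔ _
      rw [Matrix.mem_specialUnitaryGroup_iff, Matrix.mem_unitaryGroup_iff]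
      rfl
    rw [h1]
    refine IsClosed.inter ?_ ?_
    · exact isClosed_eq (toM_cont.mul (continuous_star.comp toM_cont)) continuous_const
    · exact isClosed_eq (Continuous.matrix_det toM_cont) continuous_const
  · refine Metric.isBounded_closedBall (x := (0 : V4)) (r := 1) |>.subset ?_
    intro x hx
    have hx' : toM x ∈ Matrix.specialUnitaryGroup (Fin 4) ℂ := hx
    rw [Matrix.mem_specialUnitaryGroup_iff] at hx'
    rw [mem_closedBall_zero_iff, pi_norm_le_iff_of_nonneg zero_le_one]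
    intro i
    rw [pi_norm_le_iff_of_nonneg zero_le_one]
    intro j
    exact entry_norm_bound_of_unitary hx'.1 i j


theorem su_norm (x : V4) (hx : toM x ∈ SU) : ‖x‖ ≤ 1 := by
  have h1 : toM x ∈ Matrix.unitaryGroup (Fin 4) ℂ :=
    (Matrix.mem_specialUnitaryGroup_iff.1 hx).1
  rw [pi_norm_le_iff_of_nonneg zero_le_one]
  intro i
  rw [pi_norm_le_iff_of_nonneg zero_le_one]
  intro j
  exact entry_norm_bound_of_unitary h1 i j


theorem cmt_su (z x : M4) (hz : z ∈ SU) (hx : x ∈ SU) : cmt z x ∈ SU := by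
  have hstar : ∀ u : M4, u ∈ SU → star u ∈ SU := by
    intro u hu
    have h1 : u ∈ Matrix.specialUnitaryGroup (Fin 4) ℂ := hu
    show star u ∈ Matrix.specialUnitaryGroup (Fin 4) ℂ
    rw [Matrix.mem_specialUnitaryGroup_iff] at h1 ⊢
    refine ⟨Unitary.star_mem h1.1, ?_⟩
    rw [Matrix.star_eq_conjTranspose, Matrix.det_conjTranspose, h1.2, star_one]
  show z * x * star z * star x ∈ Matrix.specialUnitaryGroup (Fin 4) ℂ
  exact mul_mem (mul_mem (mul_mem hz hx) (hstar z hz)) (hstar x hx)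


theorem cmt_one (z : M4) (hz : z ∈ SU) : cmt z 1 = 1 ∧ cmt 1 z = 1 := by
  have hz' : z ∈ Matrix.specialUnitaryGroup (Fin 4) ℂ := hz
  have h1 : z * star z = 1 := (Matrix.mem_unitaryGroup_iff).1 hz'.1
  unfold cmt
  constructor
  · rw [mul_one, star_one, mul_one, h1]
  · rw [one_mul, star_one, mul_one, h1]


theorem cmt_smul (c : ℂ) (hc : c ^ 4 = 1) (z x : M4) : cmt (c • z) x = cmt z x := by
  have h1 : ‖c‖ = 1 := by
    have h2 : ‖c‖ ^ 4 = 1 := by rw [← norm_pow, hc, norm_one]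
    exact (pow_eq_one_iff_of_nonneg (norm_nonneg c) (by norm_num)).1 h2
  have h3 : star c * c = 1 := by
    rw [mul_comm]
    have := Complex.mul_conj c
    rw [Complex.normSq_eq_norm_sq, h1] at this
    simpa using this
  unfold cmt
  rw [star_smul, smul_mul_assoc, mul_smul_comm, smul_mul_assoc, smul_mul_assoc, smul_mul_assoc,
    smul_smul, h3, one_smul]


theorem comm_cont : Continuous fun p : ℝ × ZZ × V4 =>
    toV (cmt (hZ (Set.projIcc (0:ℝ) 1 zero_le_one p.1, p.2.1)) (toM p.2.2)) := by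
  have h1 : Continuous fun p : ℝ × ZZ × V4 => (Set.projIcc (0:ℝ) 1 zero_le_one p.1, p.2.1) :=
    (continuous_projIcc.comp continuous_fst).prodMk (continuous_fst.comp continuous_snd)
  have h2 : Continuous fun p : ℝ × ZZ × V4 => hZ (Set.projIcc (0:ℝ) 1 zero_le_one p.1, p.2.1) :=
    hZ.continuous.comp h1
  have h3 : Continuous fun p : ℝ × ZZ × V4 => toM p.2.2 :=
    toM_cont.comp (continuous_snd.comp continuous_snd)
  have h5 : Continuous fun p : ℝ × ZZ × V4 =>
      cmt (hZ (Set.projIcc (0:ℝ) 1 zero_le_one p.1, p.2.1)) (toM p.2.2) := cmt_cont2 h2 h3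
  exact toV_cont.comp h5

theorem colF_cont : Continuous colF := by
  unfold colF
  refine (PiLp.continuous_toLp 2 _).comp ?_
  exact continuous_pi fun i => (continuous_apply 0).comp (continuous_apply i)

theorem colF_inj {u v : M4} (h : colF u = colF v) (i : Fin 4) : u i 0 = v i 0 :=
  congrFun (congrArg (WithLp.ofLp) h) i

/-- the data of the commutator compactum -/
def CD : Pool.KleeBing.CellData V4 W4 ZZ where
  G := {x : V4 | toM x ∈ SU}
  one := toV 1
  comm t z x := toV (cmt (hZ (Set.projIcc 0 1 zero_le_one t, z)) (toM x))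
  rho := rhoF
  col z := colF z.val
  hG := su_compact
  hG1 x hx := su_norm x hx
  one_mem := one_mem (Matrix.specialUnitaryGroup (Fin 4) ℂ)
  cont := comm_cont.continuousOn
  maps t _ z x hx := cmt_su _ _ (hZ_su _) hx
  comm_one t _ z := congrArg toV (cmt_one _ (hZ_su _)).1
  comm_end z x hx := by
    have : Set.projIcc (0:ℝ) 1 zero_le_one 1 = 1 := by simp
    show toV (cmt (hZ (Set.projIcc (0:ℝ) 1 zero_le_one 1, z)) (toM x)) = toV 1
    rw [this, hZ_one]
    exact congrArg toV (cmt_one _ hx).2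
  rho_cont := rhoF_cont.continuousOn
  rho_mem x _ := rhoF_mem x
  rho_zero x _ := rhoF_zero x
  col_cont := colF_cont.comp ZZ.val_cont
  col_inj u v h := ZZ_col u v (colF_inj h)
  col_norm z := (colF_norm z.val (ZZ_su z)).le

end BB
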