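import Mathlib
import Pool.Agent.Helper194.BB.G1
import Pool.Agent.Helper257.BB.ZZ
import Pool.Agent.Helper257.KleeBing.P_cell_like
import Pool.Agent.Helper257.KleeBing.P_cell_basic
import Pool.Agent.Helper257.KleeBing.P_quot

/-! The instance `FD0` of the fibration data: base `Bs = Y₄^ℕ`, cube `Cs`, compactum `Ks`;
the fibre is the Hilbert cube. -/

set_option autoImplicit false
set_option linter.unusedVariables false
set_option linter.unusedSectionVars false

open scoped unitInterval Matrix Topology ComplexConjugate Kronecker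
open ContinuousMap Topology

noncomputable section

namespace BB

/-- the base space -/
abbrev Bs : Type := ℕ → Ym 4

instance : MetricSpace Bs := PiCountable.metricSpace

/-- the parameter space of the lifts -/
abbrev Ps : Type := ℕ → ZZ

/-- the factors of the cube -/
abbrev E4 : ℕ → Type := fun _ => V4 × W4

/-- the ambient product -/
abbrev PE : Type := (∀ i, E4 i) × (ℕ → ℝ)

/-- the product metric -/
@[instance_reducible] def metPE : MetricSpace PE :=
  letI : MetricSpace (∀ i, E4 i) := PiCountable.metricSpace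
  letI : MetricSpace (ℕ → ℝ) := PiCountable.metricSpace
  inferInstance

/-- the cube -/
abbrev Cs : Type := ↥(Pool.KleeBing.XS E4)

instance : MetricSpace Cs := letI := metPE; inferInstance

instance : CompactSpace Cs := isCompact_iff_compactSpace.1 Pool.KleeBing.xs_compact

/-- the action of a matrix on `ℂ⁴` -/
def actW (A : M4) (v : W4) : W4 := WithLp.toLp 2 (A.mulVec (WithLp.ofLp v))


theorem actW_facts : (∀ v : W4, actW 1 v = v) ∧ (∀ (A B : M4) (v : W4), actW (A * B) v = actW A (actW B v)) ∧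
    (∀ (A : M4) (v w : W4), actW A (v - w) = actW A v - actW A w) ∧
    (∀ (A : M4) (r : ℝ) (v : W4), actW A (r • v) = r • actW A v) ∧
    (∀ (A : M4) (v : W4), A ∈ SU → ‖actW A v‖ = ‖v‖) ∧
    (∀ (c : ℂ) (A : M4) (v : W4), actW (c • A) v = c • actW A v) := by
  refine ⟨?_, ?_, ?_, ?_, ?_, ?_⟩
  · intro v
    show WithLp.toLp 2 ((1 : M4).mulVec (WithLp.ofLp v)) = v
    rw [Matrix.one_mulVec]
  · intro A B v
    show WithLp.toLp 2 ((A * B).mulVec (WithLp.ofLp v)) =
      WithLp.toLp 2 (A.mulVec (B.mulVec (WithLp.ofLp v)))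
    rw [Matrix.mulVec_mulVec]
  · intro A v w
    show WithLp.toLp 2 (A.mulVec (WithLp.ofLp v - WithLp.ofLp w)) =
      WithLp.toLp 2 (A.mulVec (WithLp.ofLp v) - A.mulVec (WithLp.ofLp w))
    rw [Matrix.mulVec_sub]
  · intro A r v
    show WithLp.toLp 2 (A.mulVec (r • WithLp.ofLp v)) =
      WithLp.toLp 2 (r • A.mulVec (WithLp.ofLp v))
    rw [Matrix.mulVec_smul]
  · intro A v hA
    have hA' : Aᴴ * A = 1 := by
      have h1 := (Matrix.mem_specialUnitaryGroup_iff.1 hA).1
      exact (Matrix.mem_unitaryGroup_iff').1 h1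
    have key : ∀ x : W4, ((‖x‖ ^ 2 : ℝ) : ℂ) = star (WithLp.ofLp x) ⬝ᵥ (WithLp.ofLp x) := by
      intro x
      rw [EuclideanSpace.norm_sq_eq]
      push_cast
      unfold dotProduct
      refine Finset.sum_congr rfl fun i _ => ?_
      rw [Pi.star_apply, RCLike.star_def, RCLike.conj_mul]
      rfl
    have h2 : ((‖actW A v‖ ^ 2 : ℝ) : ℂ) = ((‖v‖ ^ 2 : ℝ) : ℂ) := by
      rw [key, key]
      show star (A.mulVec (WithLp.ofLp v)) ⬝ᵥ (A.mulVec (WithLp.ofLp v)) = _
      rw [Matrix.star_mulVec, Matrix.dotProduct_mulVec, Matrix.vecMul_vecMul, hA',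
        Matrix.vecMul_one]
    have h3 : ‖actW A v‖ ^ 2 = ‖v‖ ^ 2 := by exact_mod_cast h2
    exact (sq_eq_sq₀ (norm_nonneg _) (norm_nonneg _)).1 h3
  · intro c A v
    show WithLp.toLp 2 ((c • A).mulVec (WithLp.ofLp v)) =
      WithLp.toLp 2 (c • A.mulVec (WithLp.ofLp v))
    rw [Matrix.smul_mulVec]


theorem actW_cont {X : Type*} [TopologicalSpace X] {f : X → M4} {g : X → W4} (hf : Continuous f)
    (hg : Continuous g) : Continuous fun p => actW (f p) (g p) := by
  unfold actW
  refine (PiLp.continuous_toLp 2 _).comp ?_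
  exact Continuous.matrix_mulVec hf ((PiLp.continuous_ofLp 2 _).comp hg)


theorem ZZ_inv (u : ZZ) : star u.val * u.val = 1 ∧ u.val * star u.val = 1 :=
  ⟨(Matrix.mem_unitaryGroup_iff').1 (ZZ_su u).1, (Matrix.mem_unitaryGroup_iff).1 (ZZ_su u).1⟩

theorem star_su {A : M4} (h : A ∈ SU) : star A ∈ SU := by
  have := cmt_su A 1 h (one_mem (Matrix.specialUnitaryGroup (Fin 4) ℂ))
  refine ⟨?_, ?_⟩
  · exact Unitary.star_mem h.1
  · have h2 : A.det = 1 := h.2
    show (star A).det = 1
    rw [Matrix.star_eq_conjTranspose, Matrix.det_conjTranspose, h2, star_one]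

/-- the action on the product -/
def actP (A : ℕ → M4) (p : PE) : PE := (fun i => ((p.1 i).1, actW (A i) (p.1 i).2), p.2)

theorem actP_mem (A : ℕ → M4) (hA : ∀ i, A i ∈ SU) (p : PE) (hp : p ∈ Pool.KleeBing.XS E4) :
    actP A p ∈ Pool.KleeBing.XS E4 := by
  refine ⟨fun i => ?_, hp.2⟩
  have h := hp.1 i
  rw [Prod.norm_def] at h ⊢
  show max ‖(p.1 i).1‖ ‖actW (A i) (p.1 i).2‖ ≤ 2
  rw [actW_facts.2.2.2.2.1 _ _ (hA i)]
  exact h


theorem actP_dist (A : ℕ → M4) (hA : ∀ i, A i ∈ SU) (p q : PE) :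
    @dist PE metPE.toDist (actP A p) (actP A q) = @dist PE metPE.toDist p q := by
  have h1 : ∀ i, dist ((actP A p).1 i) ((actP A q).1 i) = dist (p.1 i) (q.1 i) := by
    intro i
    have h2 : dist (actW (A i) (p.1 i).2) (actW (A i) (q.1 i).2) = dist (p.1 i).2 (q.1 i).2 := by
      rw [dist_eq_norm, dist_eq_norm, ← actW_facts.2.2.1, actW_facts.2.2.2.2.1 _ _ (hA i)]
    rw [Prod.dist_eq, Prod.dist_eq]
    show max (dist (p.1 i).1 (q.1 i).1) (dist (actW (A i) (p.1 i).2) (actW (A i) (q.1 i).2)) = _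
    rw [h2]
  letI m1 : MetricSpace (∀ i, E4 i) := PiCountable.metricSpace
  letI m2 : MetricSpace (ℕ → ℝ) := PiCountable.metricSpace
  have h3 : m1.toDist.dist (actP A p).1 (actP A q).1 = m1.toDist.dist p.1 q.1 := by
    refine (PiCountable.dist_eq_tsum _ _).trans ((tsum_congr (fun i => ?_)).trans
      (PiCountable.dist_eq_tsum _ _).symm)
    rw [h1 i]
  show max (m1.toDist.dist (actP A p).1 (actP A q).1) (m2.toDist.dist p.2 q.2) =
    max (m1.toDist.dist p.1 q.1) (m2.toDist.dist p.2 q.2)
  rw [h3]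


/-- the action of the lifts on the cube -/
def act (u : Ps) : Cs ≃ᵢ Cs where
  toFun c := ⟨actP (fun i => (u i).val) c.1, actP_mem _ (fun i => ZZ_su (u i)) _ c.2⟩
  invFun c := ⟨actP (fun i => star (u i).val) c.1, actP_mem _ (fun i => star_su (ZZ_su (u i))) _ c.2⟩
  left_inv c := by
    apply Subtype.ext
    refine Prod.ext (funext fun i => Prod.ext rfl ?_) rfl
    show actW (star (u i).val) (actW (u i).val (c.1.1 i).2) = (c.1.1 i).2
    rw [← actW_facts.2.1, (ZZ_inv (u i)).1, actW_facts.1]
  right_inv c := by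
    apply Subtype.ext
    refine Prod.ext (funext fun i => Prod.ext rfl ?_) rfl
    show actW (u i).val (actW (star (u i).val) (c.1.1 i).2) = (c.1.1 i).2
    rw [← actW_facts.2.1, (ZZ_inv (u i)).2, actW_facts.1]
  isometry_toFun := Isometry.of_dist_eq fun c d => actP_dist _ (fun i => ZZ_su (u i)) _ _

theorem act_val (u : Ps) (c : Cs) : (act u c).1 = actP (fun i => (u i).val) c.1 := rfl

theorem act_symm_val (u : Ps) (c : Cs) : ((act u).symm c).1 = actP (fun i => star (u i).val) c.1 := rfl

theorem actP_cont {X : Type*} [TopologicalSpace X] {f : X → ℕ → M4} {g : X → PE} (hf : Continuous f)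
    (hg : Continuous g) : Continuous fun p => actP (f p) (g p) := by
  refine Continuous.prodMk (continuous_pi fun i => Continuous.prodMk ?_ ?_) hg.snd
  · exact ((continuous_apply i).comp hg.fst).fst
  · exact actW_cont ((continuous_apply i).comp hf) ((continuous_apply i).comp hg.fst).snd

theorem act_cont : Continuous fun q : Ps × Cs => act q.1 q.2 := by
  refine Continuous.subtype_mk ?_ _
  refine actP_cont ?_ (continuous_subtype_val.comp continuous_snd)
  exact continuous_pi fun i => ZZ.val_cont.comp ((continuous_apply i).comp continuous_fst)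

theorem act_symm_cont : Continuous fun q : Ps × Cs => (act q.1).symm q.2 := by
  refine Continuous.subtype_mk ?_ _
  refine actP_cont ?_ (continuous_subtype_val.comp continuous_snd)
  exact continuous_pi fun i => continuous_star.comp (ZZ.val_cont.comp ((continuous_apply i).comp continuous_fst))

/-- the projection to the base -/
def piP : C(Ps, Bs) where
  toFun u i := piZ (u i)
  continuous_toFun := continuous_pi fun i => piZ.continuous.comp (continuous_apply i)

theorem piP_surj : Function.Surjective piP := by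
  intro b
  choose u hu using fun i => piZ_surj (b i)
  exact ⟨u, funext hu⟩

/-- the compactum in the cube -/
def Ks : Set Cs := {c | c.1 ∈ Pool.KleeBing.AA (E := E4) (Pool.KleeBing.K0 CD)}


theorem Ks_closed : IsClosed Ks := by
  have hK : IsClosed (Pool.KleeBing.K0 CD) := (Pool.KleeBing.cell_basic CD).1.isClosed
  have h : IsClosed (Pool.KleeBing.AA (E := E4) (Pool.KleeBing.K0 CD)) := by
    have h1 : IsClosed {p : PE | p.1 ∈ Pool.KleeBing.K0 CD} := hK.preimage continuous_fst
    have h2 : IsClosed {p : PE | p.2 = 0} := isClosed_eq continuous_snd continuous_const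
    exact h1.inter h2
  exact h.preimage continuous_subtype_val


/-- the special point -/
def cstar : Cs := ⟨(fun _ => (toV 1, 0), 0), by
  refine ⟨fun i => ?_, fun i => by simp⟩
  show ‖((toV 1, 0) : V4 × W4)‖ ≤ 2
  rw [Prod.norm_def]
  have := su_norm (toV 1) (one_mem (Matrix.specialUnitaryGroup (Fin 4) ℂ))
  simp only [norm_zero]
  exact max_le (by linarith) (by norm_num)⟩


theorem cstar_mem : cstar ∈ Ks := by
  obtain ⟨z0⟩ := (inferInstance : Nonempty ZZ)
  refine ⟨⟨fun _ => z0, ?_, ?_⟩, rfl⟩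
  · intro m
    refine ⟨CD.one_mem, ?_⟩
    exact (CD.comm_one 0 ⟨le_rfl, zero_le_one⟩ z0).symm
  · intro i
    have h1 : CD.rho (fun _ => toV 1) = 0 := (rhoF_zero _).mpr rfl
    show (0 : W4) = CD.rho (fun _ => toV 1) • CD.col z0
    rw [h1, zero_smul]


theorem act_cstar (u : Ps) : act u cstar = cstar := by
  have h0 : ∀ A : M4, actW A 0 = 0 := by
    intro A
    have h := actW_facts.2.2.1 A 0 0
    rw [sub_self, sub_self] at h
    exact h
  apply Subtype.ext
  rw [act_val]
  refine Prod.ext (funext fun i => Prod.ext rfl ?_) rfl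
  show actW (u i).val 0 = 0
  exact h0 _


theorem act_inv (u u' : Ps) (h : piP u = piP u') (c : Cs) (hc : act u c ∈ Ks) : act u' c ∈ Ks := by
  obtain ⟨⟨z, hz1, hz2⟩, h2⟩ := hc
  choose cc hcc using fun i => (piZ_eq_iff (u i) (u' i)).1 (congrFun h i)
  choose z' hz' using fun i => ZZ_smul (cc i) (hcc i).1 (z i)
  have hcomm : ∀ (m : ℕ) (x : V4), CD.comm 0 (z' m) x = CD.comm 0 (z m) x := by
    intro m x
    have hp : Set.projIcc (0:ℝ) 1 zero_le_one 0 = 0 := by simp
    show toV (cmt (hZ (Set.projIcc (0:ℝ) 1 zero_le_one 0, z' m)) (toM x)) =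
      toV (cmt (hZ (Set.projIcc (0:ℝ) 1 zero_le_one 0, z m)) (toM x))
    rw [hp, hZ_zero, hZ_zero, hz', cmt_smul _ (hcc m).1]
  refine ⟨⟨z', fun m => ⟨(hz1 m).1, ?_⟩, fun i => ?_⟩, h2⟩
  · rw [hcomm]; exact (hz1 m).2
  · have h3 : actW (u i).val (c.1.1 i).2 =
        rhoF (fun m => (c.1.1 m).1) • colF (z i).val := hz2 i
    show actW (u' i).val (c.1.1 i).2 = rhoF (fun m => (c.1.1 m).1) • colF (z' i).val
    have h4 : colF (cc i • (z i).val) = cc i • colF (z i).val := by
      ext j
      simp [colF]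
    rw [(hcc i).2, actW_facts.2.2.2.2.2, h3, hz', h4, smul_comm]


theorem piP_lift (X : Type) [TopologicalSpace X] (H : C(X × I, Bs)) (h0 : C(X, Ps))
    (hh : ∀ x, piP (h0 x) = H (x, 0)) :
    ∃ H' : C(X × I, Ps), (∀ x, H' (x, 0) = h0 x) ∧ ∀ q, piP (H' q) = H q := by
  have key : ∀ i : ℕ, ∃ G : C(I × X, ZZ), (∀ x, G (0, x) = h0 x i) ∧
      ∀ t x, piZ (G (t, x)) = H (x, t) i := by
    intro i
    let Hi : C(I × X, Ym 4) := ⟨fun q => H (q.2, q.1) i,
      (continuous_apply i).comp (H.continuous.comp (continuous_snd.prodMk continuous_fst))⟩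
    let fi : C(X, ZZ) := ⟨fun x => h0 x i, (continuous_apply i).comp h0.continuous⟩
    have hi : ∀ a, Hi (0, a) = piZ (fi a) := fun a => by
      change H (a, 0) i = piZ (h0 a i)
      rw [← hh a]
      rfl
    refine ⟨piZ_cov.liftHomotopy Hi fi hi, fun x => ?_, fun t x => ?_⟩
    · exact piZ_cov.liftHomotopy_zero Hi fi hi x
    · exact congrFun (piZ_cov.liftHomotopy_lifts Hi fi hi) (t, x)
  choose G hG1 hG2 using key
  refine ⟨⟨fun q i => G i (q.2, q.1), continuous_pi fun i =>
    (G i).continuous.comp (continuous_snd.prodMk continuous_fst)⟩, fun x => ?_, fun q => ?_⟩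
  · funext i
    exact hG1 i x
  · funext i
    exact hG2 i q.2 q.1


namespace Aux_piP_uniq

theorem aux_const (u v : C(I, ZZ)) (h : ∀ t, piZ (u t) = piZ (v t)) (t : I) :
    star (v t).val * (v 0).val = star (u t).val * (u 0).val := by
  have h1 : ∀ t, ∃ c : ℂ, c ^ 4 = 1 ∧ (v t).val = c • (u t).val := fun t => (piZ_eq_iff _ _).1 (h t)
  obtain ⟨c, hc⟩ : ∃ c : I → ℂ, c = fun t => ((v t).val * star (u t).val) 0 0 := ⟨_, rfl⟩
  have h2 : ∀ t, c t ^ 4 = 1 ∧ (v t).val = c t • (u t).val := by
    intro t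
    obtain ⟨d, hd, hd2⟩ := h1 t
    have : c t = d := by
      rw [hc]
      show ((v t).val * star (u t).val) 0 0 = d
      rw [hd2, smul_mul_assoc, (ZZ_inv (u t)).2]
      simp
    rw [this]
    exact ⟨hd, hd2⟩
  have hcc : Continuous c := by
    rw [hc]
    have h3 : Continuous fun t : I => (v t).val * star (u t).val :=
      (ZZ.val_cont.comp v.continuous).mul (continuous_star.comp (ZZ.val_cont.comp u.continuous))
    exact (continuous_apply 0).comp ((continuous_apply 0).comp h3)
  have hfin : Set.Finite {z : ℂ | z ^ 4 = 1} := by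
    have := (Polynomial.nthRootsFinset 4 (1 : ℂ)).finite_toSet
    refine this.subset ?_
    intro z hz
    rw [Finset.mem_coe, Polynomial.mem_nthRootsFinset (by norm_num)]
    exact hz
  have hconst : c t = c 0 :=
    (isPreconnected_univ (α := I)).constant_of_mapsTo (T := {z : ℂ | z ^ 4 = 1})
      hfin.isDiscrete hcc.continuousOn (fun s _ => (h2 s).1) (Set.mem_univ t) (Set.mem_univ 0)
  have hn : star (c 0) * c 0 = 1 := by
    have h5 : ‖c 0‖ ^ 4 = 1 := by rw [← norm_pow, (h2 0).1, norm_one]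
    have h6 : ‖c 0‖ = 1 := by
      exact (pow_eq_one_iff_of_nonneg (norm_nonneg _) (by norm_num)).1 h5
    show (starRingEnd ℂ) (c 0) * c 0 = 1
    rw [mul_comm, Complex.mul_conj, Complex.normSq_eq_norm_sq, h6]
    simp
  rw [(h2 t).2, (h2 0).2, hconst, star_smul, smul_mul_smul_comm, hn, one_smul]

end Aux_piP_uniq

open Aux_piP_uniq in
theorem piP_uniq (γ γ' : C(I, Ps)) (h : ∀ t, piP (γ t) = piP (γ' t)) (t : I) (c : Cs) :
    (act (γ t)).symm (act (γ 0) c) = (act (γ' t)).symm (act (γ' 0) c) := by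
  have key : ∀ i, star (γ t i).val * (γ 0 i).val = star (γ' t i).val * (γ' 0 i).val := by
    intro i
    have := aux_const ⟨fun s => γ s i, (continuous_apply i).comp γ.continuous⟩
      ⟨fun s => γ' s i, (continuous_apply i).comp γ'.continuous⟩
      (fun s => congrFun (h s) i) t
    exact this.symm
  apply Subtype.ext
  rw [act_symm_val, act_symm_val, act_val, act_val]
  refine Prod.ext (funext fun i => Prod.ext rfl ?_) rfl
  show actW (star (γ t i).val) (actW (γ 0 i).val (c.1.1 i).2) =
    actW (star (γ' t i).val) (actW (γ' 0 i).val (c.1.1 i).2)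
  rw [← actW_facts.2.1, ← actW_facts.2.1, key i]


/-- the fibration data -/
def FD0 : FD Ps Bs Cs where
  K := Ks
  hK := Ks_closed
  hKn := ⟨cstar, cstar_mem⟩
  π := piP
  hπ := piP_surj
  a := act
  ha := act_cont
  ha' := act_symm_cont
  inv := act_inv
  lift X _ H h0 hh := piP_lift X H h0 hh
  uniq := piP_uniq


theorem Bs_conn : ConnectedSpace Bs := by
  have hD : ConnectedSpace Dk := by
    rw [← isConnected_iff_connectedSpace]
    exact (convex_closedBall (0 : ℂ) 1).isConnected
      ⟨0, Metric.mem_closedBall_self zero_le_one⟩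
  have hY : ConnectedSpace (Ym 4) := (qY_surj 4).connectedSpace (qY 4).continuous
  exact (inferInstance : ConnectedSpace (ℕ → Ym 4))


theorem Ym_loc : LocallyConnectedSpace (Ym 4) := by
  have h1 : LocallyPathConnectedSpace Dk := (convex_closedBall (0:ℂ) 1).locallyPathConnectedSpace
  have h2 : IsQuotientMap (qY 4) :=
    (qY 4).continuous.isClosedMap.isQuotientMap (qY 4).continuous (qY_surj 4)
  have h3 : LocallyPathConnectedSpace (Ym 4) := h2.locallyPathConnectedSpace
  infer_instance


namespace Aux_Bs_loc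

theorem pi_locconn {ι : Type} {X : ι → Type} [∀ i, TopologicalSpace (X i)]
    [∀ i, ConnectedSpace (X i)] [∀ i, LocallyConnectedSpace (X i)] :
    LocallyConnectedSpace (∀ i, X i) := by
  classical
  rw [locallyConnectedSpace_iff_connected_subsets]
  intro x U hU
  rw [nhds_pi, Filter.mem_pi] at hU
  obtain ⟨J, hI, t, ht, hsub⟩ := hU
  have hV : ∀ i, ∃ V ∈ 𝓝 (x i), IsPreconnected V ∧ V ⊆ t i := fun i =>
    (locallyConnectedSpace_iff_connected_subsets.1 inferInstance) (x i) (t i) (ht i)
  choose V hV1 hV2 hV3 using hV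
  refine ⟨Set.univ.pi (fun i => if i ∈ J then V i else Set.univ), ?_, ?_, ?_⟩
  · have : J.pi V ⊆ Set.univ.pi (fun i => if i ∈ J then V i else Set.univ) := by
      intro y hy i _
      by_cases h : i ∈ J
      · simp only [h, if_true]; exact hy i h
      · simp only [h, if_false]; trivial
    exact Filter.mem_of_superset (set_pi_mem_nhds hI fun i _ => hV1 i) this
  · refine isPreconnected_univ_pi fun i => ?_
    by_cases h : i ∈ J
    · simp only [h, if_true]; exact hV2 i
    · simp only [h, if_false]; exact isPreconnected_univ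
  · refine Set.Subset.trans ?_ hsub
    intro y hy i hi
    have := hy i (Set.mem_univ i)
    simp only [hi, if_true] at this
    exact hV3 i this

theorem Ym_conn (m : ℕ) : ConnectedSpace (Ym m) := by
  have h1 : IsConnected (Metric.closedBall (0 : ℂ) 1) :=
    (convex_closedBall (0:ℂ) 1).isConnected ⟨0, by simp⟩
  have : ConnectedSpace Dk := isConnected_iff_connectedSpace.1 h1
  exact (qY_surj m).connectedSpace (qY m).continuous

end Aux_Bs_loc

open Aux_Bs_loc in
theorem Bs_loc : LocallyConnectedSpace Bs := by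
  have h1 := Ym_conn 4
  have h2 := Ym_loc
  exact pi_locconn (X := fun _ : ℕ => Ym 4)


instance : CompactSpace Bs := inferInstance

instance : CompactSpace Ps := inferInstance

/-- the fibre is the Hilbert cube -/
theorem M_cube : Nonempty (FD0.M ≃ₜ (ℕ → unitInterval)) := by
  refine Pool.KleeBing.quot (E := E4) (K := Pool.KleeBing.K0 CD) (Pool.KleeBing.cell_basic CD).1
    (Pool.KleeBing.cell_basic CD).2.1 (Pool.KleeBing.cell_like CD) FD0.QM FD0.QM.continuous
    FD0.QM_surj ?_
  intro x y
  exact FD0.QM_eq_iff x y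

end BB
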