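import Pool.Agent.Helper194.BB.K2

/-! Unitarity of the iterated commutator families. -/

set_option autoImplicit false
set_option linter.unusedVariables false
set_option linter.unusedSectionVars false

open scoped unitInterval Matrix Topology ComplexConjugate Kronecker
open ContinuousMap Topology

noncomputable section

namespace BB

namespace FU


/-! GIVEN: everything above (statements with `sorry` are proved elsewhere, leave them, just use them).
TARGET (fill in; auxiliary lemmas may be added directly before it): -/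
theorem Fn_unitary_base (z : Circle) :
    (gamU (Matrix.single 0 0 1 : M4) (by simp) z).1 ∈ Matrix.unitaryGroup (Fin 4) ℂ := by
  rw [Matrix.mem_unitaryGroup_iff, gamU_val]
  have hs : star (Matrix.single 0 0 1 : M4) = Matrix.single 0 0 1 := by
    rw [Matrix.star_eq_conjTranspose, Matrix.conjTranspose_single]
    simp
  have he : (Matrix.single 0 0 1 : M4) * Matrix.single 0 0 1 = Matrix.single 0 0 1 := by simp
  have hz : (z : ℂ) * star (z : ℂ) = 1 := by
    rw [Complex.star_def, Complex.mul_conj, Complex.normSq_eq_norm_sq, Circle.norm_coe]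
    simp
  rw [star_add, star_sub, star_one, star_smul, hs]
  simp only [mul_add, add_mul, sub_mul, mul_sub, one_mul, mul_one, Matrix.smul_mul,
      Matrix.mul_smul, he, smul_smul]
  rw [mul_comm] at hz
  rw [hz]
  simp

theorem Fn_unitary_step (A : M4ˣ) (F : M4ˣ) (hA : A.1 ∈ Matrix.unitaryGroup (Fin 4) ℂ)
    (hF : F.1 ∈ Matrix.unitaryGroup (Fin 4) ℂ) :
    (A * F * A⁻¹ * F⁻¹).1 ∈ Matrix.unitaryGroup (Fin 4) ℂ := by
  have h1 : ∀ B : M4ˣ, B.1 ∈ Matrix.unitaryGroup (Fin 4) ℂ →
      (B⁻¹).1 ∈ Matrix.unitaryGroup (Fin 4) ℂ := by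
    intro B hB
    have h2 : B.1 * star B.1 = 1 := (Matrix.mem_unitaryGroup_iff).1 hB
    have h3 : (B⁻¹).1 = star B.1 := Units.inv_eq_of_mul_eq_one_right h2
    rw [h3]
    exact Unitary.star_mem hB
  show A.1 * F.1 * (A⁻¹).1 * (F⁻¹).1 ∈ _
  exact mul_mem (mul_mem (mul_mem hA hF) (h1 A hA)) (h1 F hF)

theorem Fn_unitary (n : ℕ) (w : Wt n × Circle) : (Fn n w).1 ∈ Matrix.unitaryGroup (Fin 4) ℂ := by
  induction n with
  | zero => exact Fn_unitary_base w.2
  | succ n ih =>
    obtain ⟨⟨x, w'⟩, z⟩ := w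
    obtain ⟨y, rfl⟩ := qY_surj (oo n) x
    have h1 : Fn (n + 1) ((qY (oo n) y, w'), z) =
        zzU y * Fn n (w', z) * (zzU y)⁻¹ * (Fn n (w', z))⁻¹ := cm_apply (oo n) (Fn n) y w' z
    rw [h1]
    exact Fn_unitary_step _ _ (zz_mem y (Dk_le y)).1 (ih _)


end FU

end BB
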