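import Mathlib
import Pool.Agent.Helper194.BB.K2
import Pool.Agent.Helper257.BB.FD0
import Pool.Agent.Helper257.KleeBing.P_cell_nbhd
import Pool.Agent.Helper257.BB.FnU

/-! The test families in the total space. -/

set_option autoImplicit false
set_option linter.unusedVariables false
set_option linter.unusedSectionVars false

open scoped unitInterval Matrix Topology ComplexConjugate Kronecker
open ContinuousMap Topology

noncomputable section

namespace BB

/-- the matrix coordinates of the test family -/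
def xt : ∀ n, Wt n × Circle → ℕ → M4
  | 0, _, _ => 1
  | n + 1, p, 0 => (Fn (n + 1) p).1
  | n + 1, p, m + 1 => xt n ((show Ym (oo n) × Wt n from p.1).2, p.2) m

/-- the base coordinates of the test family -/
def bbt : ∀ n, Wt n → ℕ → Ym 4
  | 0, _, _ => qY 4 ⟨1, by simp⟩
  | 1, _, _ => qY 4 ⟨1, by simp⟩
  | n + 2, w, 0 => (show Ym 4 × Wt (n + 1) from w).1
  | n + 2, w, m + 1 => bbt (n + 1) (show Ym 4 × Wt (n + 1) from w).2 m


namespace Aux_xt_cont

theorem xt_cont_tail (n : ℕ) : Continuous fun p : Wt (n + 1) × Circle =>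
    ((show Ym (oo n) × Wt n from p.1).2, p.2) := by
  have h0 : Continuous (fun q : (Ym (oo n) × Wt n) × Circle => (q.1.2, q.2)) :=
    (continuous_fst.snd).prodMk continuous_snd
  exact h0

end Aux_xt_cont

open Aux_xt_cont in
theorem xt_cont (n m : ℕ) : Continuous fun p : Wt n × Circle => xt n p m := by
  induction n generalizing m with
  | zero =>
    show Continuous fun _ : Wt 0 × Circle => (1 : M4)
    exact continuous_const
  | succ n ih =>
    cases m with
    | zero =>
      show Continuous fun p : Wt (n + 1) × Circle => (Fn (n + 1) p).1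
      exact Units.continuous_val.comp (Fn (n + 1)).continuous
    | succ m =>
      show Continuous fun p : Wt (n + 1) × Circle =>
        xt n ((show Ym (oo n) × Wt n from p.1).2, p.2) m
      exact (ih m).comp (xt_cont_tail n)


namespace Aux_bbt_cont

theorem bbt_cont_aux : ∀ n : ℕ, Continuous (bbt n)
  | 0 => by
    have h : bbt 0 = fun _ => fun _ => qY 4 ⟨1, by simp⟩ := rfl
    rw [h]
    exact continuous_const
  | 1 => by
    have h : bbt 1 = fun _ => fun _ => qY 4 ⟨1, by simp⟩ := rfl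
    rw [h]
    exact continuous_const
  | n + 2 => by
    have ih : Continuous (bbt (n + 1)) := bbt_cont_aux (n + 1)
    have h1 : Continuous (fun w : Ym 4 × Wt (n + 1) => w.1) := continuous_fst
    have h2 : ∀ m : ℕ, Continuous (fun w : Ym 4 × Wt (n + 1) => bbt (n + 1) w.2 m) := fun m =>
      (continuous_apply m).comp (ih.comp continuous_snd)
    refine continuous_pi fun m => ?_
    cases m with
    | zero => exact h1
    | succ m => exact h2 m

end Aux_bbt_cont

open Aux_bbt_cont in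
theorem bbt_cont (n : ℕ) : Continuous (bbt n) := by
  exact bbt_cont_aux n


theorem Fn_su (n : ℕ) (p : Wt (n + 1) × Circle) : (Fn (n + 1) p).1 ∈ SU := by
  obtain ⟨w0, z⟩ := p
  obtain ⟨x, w⟩ := (show Ym (oo n) × Wt n from w0)
  obtain ⟨y, rfl⟩ := qY_surj (oo n) x
  have hF : (Fn n (w, z)).1 ∈ Matrix.unitaryGroup (Fin 4) ℂ := FU.Fn_unitary n (w, z)
  have hval : (Fn (n + 1) ((qY (oo n) y, w), z)).1 =
      zz y * (Fn n (w, z)).1 * star (zz y) * ((Fn n (w, z))⁻¹ : M4ˣ).1 := by
    have h := cm_apply (oo n) (Fn n) y w z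
    have h2 := congrArg Units.val h
    exact h2
  have hinv : ((Fn n (w, z))⁻¹ : M4ˣ).1 = star (Fn n (w, z)).1 := by
    have h1 : star (Fn n (w, z)).1 * (Fn n (w, z)).1 = 1 := (Matrix.mem_unitaryGroup_iff').1 hF
    have h2 : (Fn n (w, z)).1 * ((Fn n (w, z))⁻¹ : M4ˣ).1 = 1 := Units.mul_inv _
    calc ((Fn n (w, z))⁻¹ : M4ˣ).1 = (star (Fn n (w, z)).1 * (Fn n (w, z)).1) * ((Fn n (w, z))⁻¹ : M4ˣ).1 := by
          rw [h1, one_mul]
      _ = star (Fn n (w, z)).1 * ((Fn n (w, z)).1 * ((Fn n (w, z))⁻¹ : M4ˣ).1) := by rw [mul_assoc]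
      _ = star (Fn n (w, z)).1 := by rw [h2, mul_one]
  have hz := zz_mem y (Dk_le y)
  show (Fn (n + 1) ((qY (oo n) y, w), z)).1 ∈ SU
  rw [hval, hinv]
  refine ⟨?_, ?_⟩
  · exact mul_mem (mul_mem (mul_mem hz.1 hF) (Unitary.star_mem hz.1)) (Unitary.star_mem hF)
  · show (zz y * (Fn n (w, z)).1 * star (zz y) * star (Fn n (w, z)).1).det = 1
    have h1 : (Fn n (w, z)).1 * star (Fn n (w, z)).1 = 1 := (Matrix.mem_unitaryGroup_iff).1 hF
    have h2 : (Fn n (w, z)).1.det * (star (Fn n (w, z)).1).det = 1 := by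
      rw [← Matrix.det_mul, h1, Matrix.det_one]
    have h3 : (zz y) * star (zz y) = 1 := (Matrix.mem_unitaryGroup_iff).1 hz.1
    have h4 : (zz y).det * (star (zz y)).det = 1 := by
      rw [← Matrix.det_mul, h3, Matrix.det_one]
    rw [Matrix.det_mul, Matrix.det_mul, Matrix.det_mul]
    calc (zz y).det * (Fn n (w, z)).1.det * (star (zz y)).det * (star (Fn n (w, z)).1).det
        = ((zz y).det * (star (zz y)).det) * ((Fn n (w, z)).1.det * (star (Fn n (w, z)).1).det) := by ring
      _ = 1 := by rw [h2, h4, one_mul]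


theorem xt_su (n : ℕ) (p : Wt n × Circle) (m : ℕ) : xt n p m ∈ SU := by
  induction n generalizing m with
  | zero =>
    show (1 : M4) ∈ Matrix.specialUnitaryGroup (Fin 4) ℂ
    exact one_mem _
  | succ n ih =>
    cases m with
    | zero => exact Fn_su n p
    | succ m =>
      show xt n ((show Ym (oo n) × Wt n from p.1).2, p.2) m ∈ SU
      exact ih _ _


theorem xt_rel (n : ℕ) (w : Wt (n + 1)) : ∃ u : Ps, piP u = bbt (n + 1) w ∧
    ∀ (z : Circle) (m : ℕ), m < n → xt (n + 1) (w, z) m = cmt (u m).val (xt (n + 1) (w, z) (m + 1)) := by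
  induction n with
  | zero =>
    refine ⟨fun _ => ZZ.mk 1 (by simp) ⟨1, by simp⟩, ?_, fun z m hm => absurd hm (Nat.not_lt_zero m)⟩
    funext i
    exact piZ_mk _ _ _
  | succ n ih =>
    obtain ⟨y, w'⟩ := (w : Ym 4 × Wt (n + 1))
    obtain ⟨y0, rfl⟩ := qY_surj 4 y
    obtain ⟨u', hu', hr⟩ := ih w'
    refine ⟨fun m => Nat.casesOn m (ZZ.mk 1 (by simp) y0) u', ?_, ?_⟩
    · funext i
      cases i with
      | zero => exact piZ_mk _ _ _
      | succ i => exact congrFun hu' i
    · intro z m hm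
      cases m with
      | zero =>
        have h1 : Fn (n + 2) ((qY 4 y0, w'), z) =
            zzU y0 * Fn (n + 1) (w', z) * (zzU y0)⁻¹ * (Fn (n + 1) (w', z))⁻¹ :=
          cm_apply (oo (n + 1)) (Fn (n + 1)) y0 w' z
        have h2 : (Fn (n + 1) (w', z)).1 * star (Fn (n + 1) (w', z)).1 = 1 :=
          (Matrix.mem_unitaryGroup_iff).1 (Fn_su n (w', z)).1
        have h3 : ((Fn (n + 1) (w', z))⁻¹).1 = star (Fn (n + 1) (w', z)).1 :=
          Units.inv_eq_of_mul_eq_one_right h2
        show (Fn (n + 2) ((qY 4 y0, w'), z)).1 = cmt (ZZ.mk 1 (by simp) y0).val (Fn (n + 1) (w', z)).1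
        rw [h1, ZZ.val_mk, one_smul]
        show (zzU y0).1 * (Fn (n + 1) (w', z)).1 * ((zzU y0)⁻¹).1 * ((Fn (n + 1) (w', z))⁻¹).1 = _
        rw [h3]
        rfl
      | succ m =>
        exact hr z m (by omega)


/-- the points of the test family -/
def tp (x : ℕ → V4) (lam s : ℝ) : PE :=
  (fun i => (lam • x i, (lam * rhoF x) • colF 1), fun j => if j = 0 then s else 0)


theorem tp_mem (x : ℕ → V4) (hx : ∀ i, ‖x i‖ ≤ 1) (lam s : ℝ) (h0 : 0 ≤ lam) (h1 : lam ≤ 1)
    (hs0 : 0 ≤ s) (hs1 : s ≤ 1) : tp x lam s ∈ Pool.KleeBing.XS E4 := by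
  have hρ := rhoF_mem x
  have hcol : ‖colF 1‖ = 1 :=
    colF_norm 1 (one_mem (Matrix.specialUnitaryGroup (Fin 4) ℂ))
  refine ⟨?_, ?_⟩
  · intro i
    show ‖((lam • x i, (lam * rhoF x) • colF 1) : V4 × W4)‖ ≤ 2
    rw [Prod.norm_def]
    apply max_le
    · show ‖lam • x i‖ ≤ 2
      rw [norm_smul, Real.norm_of_nonneg h0]
      have := mul_le_mul h1 (hx i) (norm_nonneg _) zero_le_one
      linarith
    · show ‖(lam * rhoF x) • colF 1‖ ≤ 2
      rw [norm_smul, hcol, mul_one, Real.norm_of_nonneg (mul_nonneg h0 hρ.1)]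
      have := mul_le_mul h1 hρ.2 hρ.1 zero_le_one
      linarith
  · intro j
    show |(if j = 0 then s else 0)| ≤ 1
    split_ifs
    · rw [abs_of_nonneg hs0]
      exact hs1
    · rw [abs_zero]
      exact zero_le_one


theorem tp_cont {X : Type*} [TopologicalSpace X] {f : X → ℕ → V4} {g h : X → ℝ} (hf : Continuous f)
    (hg : Continuous g) (hh : Continuous h) : Continuous fun p => tp (f p) (g p) (h p) := by
  refine Continuous.prodMk (continuous_pi fun i => Continuous.prodMk ?_ ?_)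
    (continuous_pi fun j => ?_)
  · exact hg.smul ((continuous_apply i).comp hf)
  · exact (hg.mul (rhoF_cont.comp hf)).smul continuous_const
  · show Continuous fun p => if j = 0 then h p else 0
    split_ifs
    · exact hh
    · exact continuous_const


theorem rr_mem (n : ℕ) (w : Wt (n + 1)) (z : Circle) (u : Ps)
    (h : ∀ m < n, xt (n + 1) (w, z) m = cmt (u m).val (xt (n + 1) (w, z) (m + 1))) :
    ((fun m => toV (xt (n + 1) (w, z) m), u) : (ℕ → V4) × (ℕ → ZZ)) ∈ Pool.KleeBing.RR CD n := by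
  have hsu : ∀ m, toM (toV (xt (n + 1) (w, z) m)) ∈ SU := by
    intro m
    rw [toM_toV]
    exact xt_su (n + 1) (w, z) m
  refine ⟨fun m => su_norm _ (hsu m), fun m _ => hsu m, fun m hm => ?_⟩
  show toV (xt (n + 1) (w, z) m) =
    toV (cmt (hZ (Set.projIcc 0 1 zero_le_one 0, u m)) (toM (toV (xt (n + 1) (w, z) (m + 1)))))
  have hp : Set.projIcc (0:ℝ) 1 zero_le_one 0 = 0 := by simp
  rw [hp, hZ_zero, toM_toV, h m hm]


namespace Aux_act_tp

theorem actW_colF_one (A : M4) : actW A (colF 1) = colF A := by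
  unfold actW colF
  congr 1
  funext i
  show (A.mulVec (fun i => (1 : M4) i 0)) i = A i 0
  simp [Matrix.mulVec, dotProduct, Matrix.one_apply]

end Aux_act_tp

open Aux_act_tp in
theorem act_tp (u : Ps) (x : ℕ → V4) : actP (fun i => (u i).val) (tp x 1 0) =
    (Pool.KleeBing.Phi CD (x, u), 0) := by
  refine Prod.ext (funext fun i => Prod.ext ?_ ?_) (funext fun j => ?_)
  · show (1 : ℝ) • x i = x i
    rw [one_smul]
  · show actW (u i).val (((1 : ℝ) * rhoF x) • colF 1) = rhoF x • colF (u i).val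
    rw [actW_facts.2.2.2.1, actW_colF_one, one_mul]
  · show (if j = 0 then (0 : ℝ) else 0) = 0
    simp


theorem cell_close (η : ℝ) (hη : 0 < η) : ∃ n : ℕ, ∀ p ∈ Pool.KleeBing.RR CD n, ∀ c : Cs,
    c.1 = (Pool.KleeBing.Phi CD p, 0) → Metric.infDist c Ks ≤ η := by
  have hcont : Continuous fun c : Cs => Metric.infDist c Ks := Metric.continuous_infDist_pt Ks
  have hval : Continuous fun c : Cs => c.1 := continuous_subtype_val
  have hf1 : Continuous fun c : Cs => c.1.1 := continuous_fst.comp hval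
  have hf2 : Continuous fun c : Cs => c.1.2 := continuous_snd.comp hval
  have hA : IsCompact {c : Cs | c.1.2 = 0 ∧ η ≤ Metric.infDist c Ks} := by
    apply IsClosed.isCompact
    exact (isClosed_eq hf2 continuous_const).inter (isClosed_le continuous_const hcont)
  have hT : IsClosed ((fun c : Cs => c.1.1) '' {c : Cs | c.1.2 = 0 ∧ η ≤ Metric.infDist c Ks}) :=
    (hA.image hf1).isClosed
  have hKU : Pool.KleeBing.K0 CD ⊆
      ((fun c : Cs => c.1.1) '' {c : Cs | c.1.2 = 0 ∧ η ≤ Metric.infDist c Ks})ᶜ := by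
    rintro k hk ⟨c, ⟨hc1, hc2⟩, hck⟩
    have hcK : c ∈ Ks := by
      refine ⟨?_, hc1⟩
      have h : c.1.1 = k := hck
      rw [h]
      exact hk
    rw [Metric.infDist_zero_of_mem hcK] at hc2
    exact absurd hc2 (not_le.mpr hη)
  obtain ⟨n, hn⟩ := Pool.KleeBing.cell_nbhd CD (isOpen_compl_iff.mpr hT) hKU
  refine ⟨n, fun p hp c hc => ?_⟩
  by_contra hcon
  apply hn p hp
  refine ⟨c, ⟨?_, (not_le.mp hcon).le⟩, ?_⟩
  · rw [hc]
  · show c.1.1 = Pool.KleeBing.Phi CD p
    rw [hc]


/-- the first matrix coordinate -/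
def x00 : C(Cs, M4) where
  toFun c := toM (c.1.1 0).1
  continuous_toFun := by
    have h : Continuous fun c : Cs => (c.1.1 0).1 :=
      ((continuous_apply 0).comp (continuous_fst.comp continuous_subtype_val)).fst
    exact toM_cont.comp h

/-- the first interval coordinate -/
def s00 : C(Cs, ℝ) where
  toFun c := c.1.2 0
  continuous_toFun := (continuous_apply 0).comp (continuous_snd.comp continuous_subtype_val)

theorem x00_act (u : Ps) (c : Cs) : x00 (act u c) = x00 c := rfl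

theorem s00_act (u : Ps) (c : Cs) : s00 (act u c) = s00 c := rfl


theorem K_facts (c : Cs) (hc : c ∈ Ks) : IsUnit (x00 c) ∧ s00 c = 0 := by
  obtain ⟨⟨z, hz, _⟩, h2⟩ := hc
  constructor
  · have h3 : toM (c.1.1 0).1 ∈ SU := (hz 0).1
    have h4 := (Matrix.mem_unitaryGroup_iff).1 h3.1
    have h5 := (Matrix.mem_unitaryGroup_iff').1 h3.1
    show IsUnit (toM (c.1.1 0).1)
    exact ⟨⟨_, _, h4, h5⟩, rfl⟩
  · show c.1.2 0 = 0
    rw [h2]
    rfl


theorem cend_mem : tp (fun _ => 0) 0 1 ∈ Pool.KleeBing.XS E4 :=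
  tp_mem _ (fun i => by simp) _ _ le_rfl zero_le_one zero_le_one le_rfl

/-- the end point -/
def cend : Cs := ⟨tp (fun _ => 0) 0 1, cend_mem⟩

theorem s00_cend : s00 cend = 1 := rfl


theorem test_family (η : ℝ) (hη : 0 < η) : ∃ (n : ℕ) (bb : C(Wt (n + 1), Bs))
    (α γ : C((Wt (n + 1) × Circle) × I, Cs)),
      (∀ w, FD0.dl (bb w.1) (α (w, 0)) ≤ η) ∧ (∀ w s, x00 (α (w, s)) = (Fn (n + 1) w).1) ∧
      (∀ w, s00 (α (w, 1)) = 1) ∧ (∀ w, γ (w, 0) = α (w, 1)) ∧ (∀ w, γ (w, 1) = cend) ∧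
      ∀ q, s00 (γ q) = 1 := by
  obtain ⟨n, hn⟩ := cell_close η hη
  have hx : ∀ (p : Wt (n+1) × Circle) (i : ℕ), ‖toV (xt (n+1) p i)‖ ≤ 1 :=
    fun p i => su_norm _ (xt_su (n+1) p i)
  have hxc : Continuous (fun p : Wt (n+1) × Circle => fun m => toV (xt (n+1) p m)) :=
    continuous_pi fun m => toV_cont.comp (xt_cont (n+1) m)
  let α : C((Wt (n + 1) × Circle) × I, Cs) :=
    { toFun := fun q => ⟨tp (fun m => toV (xt (n+1) q.1 m)) 1 q.2,
        tp_mem _ (hx q.1) _ _ zero_le_one le_rfl q.2.2.1 q.2.2.2⟩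
      continuous_toFun := by
        refine Continuous.subtype_mk ?_ _
        exact tp_cont (f := fun q : (Wt (n + 1) × Circle) × I => fun m => toV (xt (n+1) q.1 m))
          (g := fun _ => 1) (h := fun q : (Wt (n + 1) × Circle) × I => (q.2 : ℝ))
          (hxc.comp continuous_fst) continuous_const (continuous_subtype_val.comp continuous_snd) }
  let γ : C((Wt (n + 1) × Circle) × I, Cs) :=
    { toFun := fun q => ⟨tp (fun m => toV (xt (n+1) q.1 m)) (1 - q.2) 1,
        tp_mem _ (hx q.1) _ _ (by linarith [q.2.2.2]) (by linarith [q.2.2.1]) zero_le_one le_rfl⟩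
      continuous_toFun := by
        refine Continuous.subtype_mk ?_ _
        exact tp_cont (f := fun q : (Wt (n + 1) × Circle) × I => fun m => toV (xt (n+1) q.1 m))
          (g := fun q : (Wt (n + 1) × Circle) × I => 1 - (q.2 : ℝ)) (h := fun _ => 1)
          (hxc.comp continuous_fst)
          (continuous_const.sub (continuous_subtype_val.comp continuous_snd)) continuous_const }
  refine ⟨n, ⟨bbt (n+1), bbt_cont _⟩, α, γ, ?_, ?_, ?_, ?_, ?_, ?_⟩
  · intro w
    obtain ⟨u, hu, hrel⟩ := xt_rel n w.1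
    have e : (⟨bbt (n+1), bbt_cont _⟩ : C(Wt (n + 1), Bs)) w.1 = FD0.π u := hu.symm
    rw [e, FD.dl_apply]
    refine hn ((fun m => toV (xt (n+1) (w.1, w.2) m)), u)
      (rr_mem n w.1 w.2 u (fun m hm => hrel w.2 m hm)) (act u (α (w, 0))) ?_
    rw [act_val]
    show actP (fun i => (u i).val) (tp (fun m => toV (xt (n+1) w m)) 1 ((0 : I) : ℝ)) = _
    rw [Set.Icc.coe_zero]
    exact act_tp u _
  · intro w s
    show toM ((1:ℝ) • toV (xt (n+1) w 0)) = (Fn (n + 1) w).1
    rw [one_smul]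
    rfl
  · intro w
    show (if (0:ℕ) = 0 then ((1 : I) : ℝ) else 0) = 1
    simp
  · intro w
    apply Subtype.ext
    show tp (fun m => toV (xt (n+1) w m)) (1 - ((0 : I) : ℝ)) 1 =
      tp (fun m => toV (xt (n+1) w m)) 1 ((1 : I) : ℝ)
    rw [Set.Icc.coe_zero, Set.Icc.coe_one, sub_zero]
  · intro w
    apply Subtype.ext
    show tp (fun m => toV (xt (n+1) w m)) (1 - ((1 : I) : ℝ)) 1 = tp (fun _ => 0) 0 1
    rw [Set.Icc.coe_one, sub_self]
    unfold tp
    simp only [zero_smul, zero_mul]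
  · intro q
    show (if (0:ℕ) = 0 then (1 : ℝ) else 0) = 1
    simp


end BB
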